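import Pool.Agent.H27.PB.Stm

set_option autoImplicit false

/-! BC: sparse sets of integers are hit by a summable family. -/

open Filter Topology MeasureTheory Finset

namespace Pool.Agent.H27.PB

open Pool.Agent.H27.LD

open Classical in
lemma bc_vol (B : Set ℕ) (i₀ : ℕ)
    (hB : ∀ i, i₀ ≤ i →
      (((Ioc (2 ^ i) (2 ^ (i + 1))).filter (fun m : ℕ => m ∈ B)).card : ℝ) * i ≤ 2 ^ i)
    (u b : ℝ) (hb : 0 < b) (hy : (i₀ : ℝ) + 3 ≤ u * b / Real.log 2) :
    volume (Ev B b ∩ Set.Icc u (2 * u)) ≤ ENNReal.ofReal (6 / b) := by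
  have hl2 : 0 < Real.log 2 := Real.log_pos (by norm_num)
  obtain ⟨y, hyd⟩ : ∃ y, y = u * b / Real.log 2 := ⟨_, rfl⟩
  rw [← hyd] at hy
  have hi₀r : (0 : ℝ) ≤ i₀ := Nat.cast_nonneg _
  have hub : u * b = y * Real.log 2 := by
    rw [hyd]; field_simp
  have hy3 : 3 ≤ y := by linarith
  obtain ⟨I1, hI1⟩ : ∃ I1 : ℕ, I1 = ⌈y - 2⌉₊ := ⟨_, rfl⟩
  obtain ⟨I2, hI2⟩ : ∃ I2 : ℕ, I2 = ⌊2 * y⌋₊ := ⟨_, rfl⟩
  have hI1r : y - 2 ≤ I1 := by rw [hI1]; exact Nat.le_ceil _
  have hI2r : (I2 : ℝ) ≤ 2 * y := by rw [hI2]; exact Nat.floor_le (by linarith)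
  have hI1i₀ : i₀ ≤ I1 := by
    have : (i₀ : ℝ) ≤ I1 := by linarith
    exact_mod_cast this
  let Q : ℕ → Finset ℕ := fun i => (Ioc (2 ^ i) (2 ^ (i + 1))).filter (fun m : ℕ => m ∈ B)
  have hexp : Real.exp (u * b) = (2 : ℝ) ^ y := by
    rw [hub, Real.rpow_def_of_pos (by norm_num), mul_comm]
  have hexp2 : Real.exp (2 * u * b) = (2 : ℝ) ^ (2 * y) := by
    rw [Real.rpow_def_of_pos (by norm_num)]
    congr 1
    rw [mul_assoc, hub]
    ring
  have hsub : Ev B b ∩ Set.Icc u (2 * u) ⊆ ⋃ i ∈ Finset.Icc I1 I2, ⋃ m ∈ Q i,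
      Set.Icc (Real.log m / b) (Real.log ((m + 1 : ℕ) : ℝ) / b) := by
    rintro β ⟨⟨m, hmB, h1, h2⟩, h3, h4⟩
    have h5 : (2 : ℝ) ^ y ≤ m + 1 := by
      rw [← hexp]
      refine le_trans (Real.exp_le_exp.2 ?_) h2
      exact mul_le_mul_of_nonneg_right h3 hb.le
    have h6 : (2 : ℝ) ^ (y - 1) ≤ m := by
      have h7 : (2 : ℝ) ^ y = 2 * 2 ^ (y - 1) := by
        rw [Real.rpow_sub_one (by norm_num)]
        ring
      have h8 : (1 : ℝ) ≤ 2 ^ (y - 1) := Real.one_le_rpow (by norm_num) (by linarith)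
      linarith
    have h8 : (2 : ℝ) ≤ m := by
      refine le_trans ?_ h6
      calc (2 : ℝ) = 2 ^ (1 : ℝ) := (Real.rpow_one 2).symm
        _ ≤ 2 ^ (y - 1) := Real.rpow_le_rpow_of_exponent_le (by norm_num) (by linarith)
    have hm2 : 2 ≤ m := by exact_mod_cast h8
    have hmpos : (0 : ℝ) < m := by linarith
    obtain ⟨i, hi⟩ : ∃ i, i = Nat.log 2 (m - 1) := ⟨_, rfl⟩
    have g1 : 2 ^ i ≤ m - 1 := by
      rw [hi]; exact Nat.pow_log_le_self 2 (by omega)
    have g2 : m - 1 < 2 ^ (i + 1) := by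
      rw [hi]; exact Nat.lt_pow_succ_log_self (by norm_num) _
    have g3 : 2 ^ i < m := by omega
    have g4 : m ≤ 2 ^ (i + 1) := by omega
    have g5 : (2 : ℝ) ^ (y - 1) ≤ 2 ^ ((i + 1 : ℕ) : ℝ) := by
      rw [Real.rpow_natCast]
      refine h6.trans ?_
      exact_mod_cast g4
    have g6 : y - 1 ≤ ((i + 1 : ℕ) : ℝ) :=
      (Real.rpow_le_rpow_left_iff (by norm_num : (1 : ℝ) < 2)).1 g5
    push_cast at g6
    have g7 : I1 ≤ i := by
      rw [hI1]
      exact Nat.ceil_le.2 (by linarith)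
    have g8 : (2 : ℝ) ^ ((i : ℕ) : ℝ) ≤ 2 ^ (2 * y) := by
      rw [Real.rpow_natCast, ← hexp2]
      have g9 : (2 : ℝ) ^ i ≤ m := by exact_mod_cast g3.le
      refine g9.trans (h1.trans (Real.exp_le_exp.2 ?_))
      exact mul_le_mul_of_nonneg_right h4 hb.le
    have g9 : ((i : ℕ) : ℝ) ≤ 2 * y :=
      (Real.rpow_le_rpow_left_iff (by norm_num : (1 : ℝ) < 2)).1 g8
    have g10 : i ≤ I2 := by
      rw [hI2]
      exact Nat.le_floor g9
    simp only [Set.mem_iUnion]
    refine ⟨i, Finset.mem_Icc.2 ⟨g7, g10⟩, m, ?_, ?_, ?_⟩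
    · simp only [Q, Finset.mem_filter, Finset.mem_Ioc]
      exact ⟨⟨g3, g4⟩, hmB⟩
    · rw [div_le_iff₀ hb, Real.log_le_iff_le_exp hmpos]
      exact h1
    · rw [le_div_iff₀ hb, Real.le_log_iff_exp_le (by positivity)]
      push_cast
      exact h2
  have hone : ∀ i ∈ Finset.Icc I1 I2, volume (⋃ m ∈ Q i,
      Set.Icc (Real.log m / b) (Real.log ((m + 1 : ℕ) : ℝ) / b)) ≤
      ENNReal.ofReal (1 / ((y - 2) * b)) := by
    intro i hi
    rw [Finset.mem_Icc] at hi
    have hiy : y - 2 ≤ (i : ℝ) := hI1r.trans (by exact_mod_cast hi.1)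
    have hi0 : (0 : ℝ) < i := by linarith
    have h2i : (0 : ℝ) < 2 ^ i := by positivity
    calc volume (⋃ m ∈ Q i, Set.Icc (Real.log m / b) (Real.log ((m + 1 : ℕ) : ℝ) / b))
        ≤ ∑ m ∈ Q i, volume (Set.Icc (Real.log m / b) (Real.log ((m + 1 : ℕ) : ℝ) / b)) :=
          measure_biUnion_finset_le _ _
      _ ≤ ∑ m ∈ Q i, ENNReal.ofReal (1 / (2 ^ i * b)) := by
          refine Finset.sum_le_sum fun m hm => ?_
          rw [Real.volume_Icc]
          apply ENNReal.ofReal_le_ofReal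
          simp only [Q, Finset.mem_filter, Finset.mem_Ioc] at hm
          have hm1 : (2 : ℝ) ^ i ≤ m := by exact_mod_cast hm.1.1.le
          have hm0 : (0 : ℝ) < m := by linarith
          rw [← sub_div, ← div_div]
          apply div_le_div_of_nonneg_right _ hb.le
          rw [← Real.log_div (by positivity) hm0.ne']
          have h3 := Real.log_le_sub_one_of_pos (x := ((m + 1 : ℕ) : ℝ) / m) (by positivity)
          have h4 : ((m + 1 : ℕ) : ℝ) / m - 1 = 1 / m := by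
            push_cast
            field_simp
            ring
          rw [h4] at h3
          exact h3.trans (one_div_le_one_div_of_le h2i hm1)
      _ = ENNReal.ofReal ((Q i).card * (1 / (2 ^ i * b))) := by
          rw [Finset.sum_const, nsmul_eq_mul, ENNReal.ofReal_mul (Nat.cast_nonneg _),
            ENNReal.ofReal_natCast]
      _ ≤ ENNReal.ofReal (1 / ((y - 2) * b)) := by
          apply ENNReal.ofReal_le_ofReal
          have h3 : ((Q i).card : ℝ) * i ≤ 2 ^ i := hB i (hI1i₀.trans hi.1)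
          have h4 : 0 < (y - 2) * b := mul_pos (by linarith) hb
          rw [mul_one_div, div_le_div_iff₀ (by positivity) h4]
          have h5 : ((Q i).card : ℝ) * (y - 2) ≤ 2 ^ i :=
            (mul_le_mul_of_nonneg_left hiy (Nat.cast_nonneg _)).trans h3
          nlinarith
  calc volume (Ev B b ∩ Set.Icc u (2 * u))
      ≤ volume (⋃ i ∈ Finset.Icc I1 I2, ⋃ m ∈ Q i,
        Set.Icc (Real.log m / b) (Real.log ((m + 1 : ℕ) : ℝ) / b)) := measure_mono hsub
    _ ≤ ∑ i ∈ Finset.Icc I1 I2, volume (⋃ m ∈ Q i,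
        Set.Icc (Real.log m / b) (Real.log ((m + 1 : ℕ) : ℝ) / b)) :=
        measure_biUnion_finset_le _ _
    _ ≤ ∑ i ∈ Finset.Icc I1 I2, ENNReal.ofReal (1 / ((y - 2) * b)) := Finset.sum_le_sum hone
    _ = ENNReal.ofReal ((Finset.Icc I1 I2).card * (1 / ((y - 2) * b))) := by
        rw [Finset.sum_const, nsmul_eq_mul, ENNReal.ofReal_mul (Nat.cast_nonneg _),
          ENNReal.ofReal_natCast]
    _ ≤ ENNReal.ofReal (6 / b) := by
        apply ENNReal.ofReal_le_ofReal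
        have h1 : ((Finset.Icc I1 I2).card : ℝ) ≤ y + 3 := by
          rw [Nat.card_Icc]
          rcases Nat.le_total I1 (I2 + 1) with h | h
          · rw [Nat.cast_sub h]
            push_cast
            linarith
          · rw [Nat.sub_eq_zero_of_le h]
            push_cast
            linarith
        have h4 : 0 < (y - 2) * b := mul_pos (by linarith) hb
        rw [mul_one_div, div_le_div_iff₀ h4 hb]
        have h5 : ((Finset.Icc I1 I2).card : ℝ) ≤ 6 * (y - 2) := by linarith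
        nlinarith

lemma bc_sum (b w : ℕ → ℝ) (hw : ∀ n, 0 ≤ w n) (hm : BddMass b w) :
    ∃ C : ℝ, ∀ F : Finset ℕ, (∀ n ∈ F, 1 ≤ b n) → ∑ n ∈ F, w n / b n ≤ C := by
  obtain ⟨C, hC⟩ := hm
  have hC0 : 0 ≤ C := by simpa using hC 0 ∅ (by simp)
  refine ⟨2 * C, fun F hF => ?_⟩
  have h2 : (1 : ℝ) < 2 := by norm_num
  obtain ⟨K, hK⟩ : ∃ K : ℕ, K = F.sup (fun n => idx 2 (b n)) + 1 := ⟨_, rfl⟩
  have hmaps : ∀ n ∈ F, idx 2 (b n) ∈ Finset.range K := by
    intro n hn
    rw [Finset.mem_range, hK]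
    exact Nat.lt_succ_of_le (Finset.le_sup (f := fun n => idx 2 (b n)) hn)
  rw [← Finset.sum_fiberwise_of_maps_to hmaps]
  calc ∑ k ∈ Finset.range K, ∑ n ∈ F with idx 2 (b n) = k, w n / b n
      ≤ ∑ k ∈ Finset.range K, C * (1 / 2) ^ k := by
        refine Finset.sum_le_sum fun k _ => ?_
        have h3 : ∀ n ∈ F.filter (fun n => idx 2 (b n) = k), (2 : ℝ) ^ k ≤ b n ∧
            b n < 2 ^ (k + 1) := by
          intro n hn
          rw [Finset.mem_filter] at hn
          have h4 := idx_spec 2 (b n) h2 (hF n hn.1)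
          rw [hn.2] at h4
          exact h4
        calc ∑ n ∈ F with idx 2 (b n) = k, w n / b n
            ≤ ∑ n ∈ F with idx 2 (b n) = k, w n * (1 / 2) ^ k := by
              refine Finset.sum_le_sum fun n hn => ?_
              have h5 := (h3 n hn).1
              have h6 : (0 : ℝ) < 2 ^ k := by positivity
              rw [one_div_pow, mul_one_div]
              exact div_le_div_of_nonneg_left (hw n) h6 h5
          _ = (∑ n ∈ F with idx 2 (b n) = k, w n) * (1 / 2) ^ k := by rw [Finset.sum_mul]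
          _ ≤ C * (1 / 2) ^ k := by
              apply mul_le_mul_of_nonneg_right _ (by positivity)
              exact hC k _ h3
    _ = C * ∑ k ∈ Finset.range K, (1 / 2 : ℝ) ^ k := by rw [Finset.mul_sum]
    _ ≤ C * 2 := by
        apply mul_le_mul_of_nonneg_left _ hC0
        exact sum_geometric_two_le K
    _ = 2 * C := by ring

open Classical in
lemma bc_local (B : Set ℕ) (i₀ : ℕ)
    (hB : ∀ i, i₀ ≤ i →
      (((Ioc (2 ^ i) (2 ^ (i + 1))).filter (fun m : ℕ => m ∈ B)).card : ℝ) * i ≤ 2 ^ i)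
    (b w : ℕ → ℝ) (hb : Tendsto b atTop atTop) (hw : ∀ n, 0 ≤ w n) (hm : BddMass b w)
    (u : ℝ) (hu : 0 < u) :
    ∀ᵐ β : ℝ, β ∈ Set.Icc u (2 * u) → Summable (fun n => w n * hit B (b n) β) := by
  have hl2 : 0 < Real.log 2 := Real.log_pos (by norm_num)
  obtain ⟨b₀, hb₀⟩ : ∃ b₀ : ℝ, b₀ = max 1 (((i₀ : ℝ) + 3) * Real.log 2 / u) := ⟨_, rfl⟩
  obtain ⟨N₀, hN₀⟩ := eventually_atTop.1 (hb.eventually_ge_atTop b₀)
  have hb1 : ∀ n, 1 ≤ b (n + N₀) := fun n =>
    (le_max_left _ _).trans (hb₀ ▸ hN₀ (n + N₀) (by omega))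
  have hb2 : ∀ n, (i₀ : ℝ) + 3 ≤ u * b (n + N₀) / Real.log 2 := by
    intro n
    have h1 : ((i₀ : ℝ) + 3) * Real.log 2 / u ≤ b (n + N₀) :=
      (le_max_right _ _).trans (hb₀ ▸ hN₀ (n + N₀) (by omega))
    rw [le_div_iff₀ hl2]
    rw [div_le_iff₀ hu] at h1
    linarith
  have hvol : ∀ n, volume (Ev B (b (n + N₀)) ∩ Set.Icc u (2 * u)) ≤
      ENNReal.ofReal (6 / b (n + N₀)) := fun n =>
    bc_vol B i₀ hB u (b (n + N₀)) (by linarith [hb1 n]) (hb2 n)
  -- summability of the bounds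
  obtain ⟨C, hC⟩ := bc_sum b w hw hm
  have hsum : Summable (fun n => w (n + N₀) * (6 / b (n + N₀))) := by
    have h1 : Summable (fun n => w (n + N₀) / b (n + N₀)) := by
      refine summable_of_sum_le (c := C) (fun n => div_nonneg (hw _) (by linarith [hb1 n])) ?_
      intro F
      have h2 : ∑ n ∈ F, w (n + N₀) / b (n + N₀) =
          ∑ n ∈ F.map (addRightEmbedding N₀), w n / b n := by
        rw [Finset.sum_map]
        rfl
      rw [h2]
      apply hC
      intro n hn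
      rw [Finset.mem_map] at hn
      obtain ⟨m, -, rfl⟩ := hn
      exact hb1 m
    have h2 := h1.mul_left 6
    refine h2.congr fun n => ?_
    ring
  let g : ℕ → ℝ → ENNReal := fun n β =>
    ENNReal.ofReal (w (n + N₀)) * (Ev B (b (n + N₀))).indicator 1 β
  have hgm : ∀ n, Measurable (g n) := fun n =>
    (measurable_one.indicator (Ev_meas B _)).const_mul _
  have hint : ∫⁻ β in Set.Icc u (2 * u), ∑' n, g n β ≠ ⊤ := by
    rw [lintegral_tsum (fun n => (hgm n).aemeasurable)]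
    have h1 : ∀ n, ∫⁻ β in Set.Icc u (2 * u), g n β ≤
        ENNReal.ofReal (w (n + N₀) * (6 / b (n + N₀))) := by
      intro n
      simp only [g]
      rw [lintegral_const_mul _ (measurable_one.indicator (Ev_meas B _)),
        lintegral_indicator_one (Ev_meas B _), Measure.restrict_apply (Ev_meas B _),
        ENNReal.ofReal_mul (hw _)]
      exact mul_le_mul_right (hvol n) _
    refine ne_top_of_le_ne_top ?_ (ENNReal.tsum_le_tsum h1)
    exact hsum.tsum_ofReal_ne_top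
  have hae := ae_lt_top (Measurable.tsum hgm) hint
  rw [ae_restrict_iff' measurableSet_Icc] at hae
  filter_upwards [hae] with β hβ hβu
  have h1 := (hβ hβu).ne
  have h2 := ENNReal.summable_toReal h1
  rw [← summable_nat_add_iff N₀]
  refine h2.congr fun n => ?_
  simp only [g]
  rw [ENNReal.toReal_mul, ENNReal.toReal_ofReal (hw _)]
  congr 1
  unfold hit
  by_cases h : β ∈ Ev B (b (n + N₀))
  · rw [Set.indicator_of_mem h, if_pos h]
    simp
  · rw [Set.indicator_of_notMem h, if_neg h]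
    simp

theorem bc : S_BC := by
  intro B hB b w hb hw hm
  obtain ⟨i₀, hi₀⟩ := eventually_atTop.1 hB
  have hloc : ∀ i : ℤ, ∀ᵐ β : ℝ, β ∈ Set.Icc ((2:ℝ) ^ i) (2 * (2:ℝ) ^ i) →
      Summable (fun n => w n * hit B (b n) β) := fun i =>
    bc_local B i₀ hi₀ b w hb hw hm ((2:ℝ) ^ i) (by positivity)
  have hall : ∀ᵐ β : ℝ, 0 < β → Summable (fun n => w n * hit B (b n) β) := by
    filter_upwards [ae_all_iff.2 hloc] with β hβ hβ0
    obtain ⟨i, hi1, hi2⟩ := exists_mem_Ico_zpow hβ0 (by norm_num : (1:ℝ) < 2)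
    exact hβ i ⟨hi1, by rw [zpow_add₀ (by norm_num)] at hi2; linarith⟩
  obtain ⟨W, hW⟩ : ∃ W : Set ℝ, W = {β : ℝ | ¬ (0 < β →
      Summable (fun n => w n * hit B (b n) β))} := ⟨_, rfl⟩
  have hW0 : volume W = 0 := by rw [hW]; exact hall
  have hWe : volume (Real.exp '' W) = 0 :=
    addHaar_image_eq_zero_of_differentiableOn_of_addHaar_eq_zero volume
      Real.differentiable_exp.differentiableOn hW0
  have hae : ∀ᵐ α : ℝ, α ∉ Real.exp '' W := measure_eq_zero_iff_ae_notMem.1 hWe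
  filter_upwards [hae] with α hα hα1
  have hα0 : 0 < α := by linarith
  by_contra hcon
  apply hα
  refine ⟨Real.log α, ?_, Real.exp_log hα0⟩
  rw [hW]
  intro hcon2
  apply hcon
  refine (hcon2 (Real.log_pos hα1)).congr fun n => ?_
  have h2 : Real.exp (Real.log α * b n) = α ^ b n := (Real.rpow_def_of_pos hα0 _).symm
  have h3 : Real.log α ∈ Ev B (b n) ↔ ∃ m ∈ B, (m : ℝ) ≤ α ^ b n ∧ α ^ b n ≤ m + 1 := by
    unfold Ev
    rw [Set.mem_ofPred_eq, h2]
  unfold hit
  by_cases h : ∃ m ∈ B, (m : ℝ) ≤ α ^ b n ∧ α ^ b n ≤ m + 1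
  · rw [if_pos h, if_pos (h3.2 h)]
  · rw [if_neg h, if_neg (fun h' => h (h3.1 h'))]

end Pool.Agent.H27.PB
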