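import Pool.Agent.H27.PB.Stm

set_option autoImplicit false

/-!
Project PB, part BLK: almost all blocks contain the expected number of primes.
-/

open Filter Topology Finset

namespace Pool.Agent.H27.PB.BLK

noncomputable section

open ArithmeticFunction (vonMangoldt)

lemma pr_nat (a L : ℕ) : pr (a : ℝ) (L : ℝ) = ((Ioc a (a + L)).filter Nat.Prime).card := by
  unfold pr
  rw [← Set.ncard_coe_finset]
  congr 1
  ext p
  simp only [Set.mem_ofPred_eq, coe_filter, mem_Ioc]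
  constructor
  · rintro ⟨h1, h2, h3⟩
    exact ⟨⟨by exact_mod_cast h2, by exact_mod_cast h3⟩, h1⟩
  · rintro ⟨⟨h1, h2⟩, h3⟩
    exact ⟨h3, by exact_mod_cast h1, by exact_mod_cast h2⟩

lemma plus (a L q : ℕ) (ha : 2 ≤ a) (h : ((L : ℝ) + 4 * q) / Real.log a < pr a L) (u : ℕ)
    (hu : u ≤ a) (hu' : a ≤ u + q) :
    (q : ℝ) ≤ ∑ n ∈ Ioc u (u + (L + q)), (vonMangoldt n - 1) := by
  have hl : 0 < Real.log a := Real.log_pos (by exact_mod_cast (by omega : 1 < a))
  have h1 : (L : ℝ) + 4 * q ≤ ∑ n ∈ Ioc a (a + L), vonMangoldt n := by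
    have h2 : (pr a L : ℝ) * Real.log a ≤
        ∑ n ∈ (Ioc a (a + L)).filter Nat.Prime, vonMangoldt n := by
      rw [pr_nat, ← nsmul_eq_mul, ← Finset.sum_const]
      refine sum_le_sum fun p hp => ?_
      simp only [mem_filter, mem_Ioc] at hp
      rw [ArithmeticFunction.vonMangoldt_apply_prime hp.2]
      exact Real.log_le_log (by exact_mod_cast (by omega : 0 < a)) (by exact_mod_cast hp.1.1.le)
    have h3 := sum_le_sum_of_subset_of_nonneg (filter_subset Nat.Prime (Ioc a (a + L)))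
      (f := fun n => (vonMangoldt n : ℝ))
      (fun i _ _ => ArithmeticFunction.vonMangoldt_nonneg)
    rw [div_lt_iff₀ hl] at h
    linarith
  have h4 : ∑ n ∈ Ioc a (a + L), (vonMangoldt n : ℝ) ≤ ∑ n ∈ Ioc u (u + (L + q)), vonMangoldt n :=
    sum_le_sum_of_subset_of_nonneg (Ioc_subset_Ioc hu (by omega))
      (fun i _ _ => ArithmeticFunction.vonMangoldt_nonneg)
  rw [sum_sub_distrib]
  simp only [sum_const, Nat.card_Ioc, nsmul_eq_mul, mul_one]
  rw [show u + (L + q) - u = L + q by omega]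
  push_cast
  have hq : (0 : ℝ) ≤ q := by positivity
  linarith

lemma minus (i a L q : ℕ) (hi : 1 ≤ i) (ha : 2 ^ i ≤ a) (haL : a + L ≤ 2 ^ (i + 1))
    (hLq : L ≤ i * q) (hqL : q ≤ L)
    (hpp : 2 * √((2 : ℝ) ^ (i + 1)) * Real.log ((2 : ℝ) ^ (i + 1)) ≤ q)
    (h : (pr a L : ℝ) < ((L : ℝ) - 4 * q) / Real.log a) (u : ℕ)
    (hu : a ≤ u) (hu' : u ≤ a + q) :
    ∑ n ∈ Ioc u (u + (L - q)), (vonMangoldt n - 1) ≤ -(q : ℝ) := by
  have h2i : 2 ≤ 2 ^ i := by
    calc 2 = 2 ^ 1 := rfl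
      _ ≤ 2 ^ i := Nat.pow_le_pow_right (by norm_num) hi
  have ha2 : 2 ≤ a := h2i.trans ha
  have hl : 0 < Real.log a := Real.log_pos (by exact_mod_cast (by omega : 1 < a))
  have hi0 : (0 : ℝ) < i := by exact_mod_cast hi
  have hlog2 : 0 < Real.log 2 := Real.log_pos (by norm_num)
  have hla : i * Real.log 2 ≤ Real.log a := by
    rw [← Real.log_pow]
    exact Real.log_le_log (by positivity) (by exact_mod_cast ha)
  have hD0 : 0 ≤ (L : ℝ) - 4 * q := by
    by_contra hneg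
    push Not at hneg
    have : ((L : ℝ) - 4 * q) / Real.log a < 0 := div_neg_of_neg_of_pos hneg hl
    have h0 : (0 : ℝ) ≤ pr a L := by positivity
    linarith
  -- primes
  have hP : ∑ n ∈ (Ioc a (a + L)).filter Nat.Prime, (vonMangoldt n : ℝ) ≤
      (L : ℝ) - 3 * q := by
    have h1 : ∑ n ∈ (Ioc a (a + L)).filter Nat.Prime, (vonMangoldt n : ℝ) ≤
        (pr a L : ℝ) * ((i + 1) * Real.log 2) := by
      rw [pr_nat, ← nsmul_eq_mul, ← Finset.sum_const]
      refine sum_le_sum fun p hp => ?_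
      simp only [mem_filter, mem_Ioc] at hp
      rw [ArithmeticFunction.vonMangoldt_apply_prime hp.2]
      have : ((i : ℝ) + 1) * Real.log 2 = Real.log ((2 : ℝ) ^ (i + 1)) := by
        rw [Real.log_pow]; push_cast; ring
      rw [this]
      refine Real.log_le_log (by exact_mod_cast hp.2.pos) ?_
      exact_mod_cast hp.1.2.trans haL
    have h2 : (pr a L : ℝ) * (i * Real.log 2) ≤ (L : ℝ) - 4 * q := by
      rw [lt_div_iff₀ hl] at h
      have h0 : (0 : ℝ) ≤ pr a L := by positivity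
      nlinarith [mul_le_mul_of_nonneg_left hla h0]
    have h3 : (pr a L : ℝ) * Real.log 2 ≤ q := by
      have hLq' : (L : ℝ) ≤ i * q := by exact_mod_cast hLq
      have h4 : (pr a L : ℝ) * Real.log 2 * i ≤ q * i := by
        have hq : (0 : ℝ) ≤ q := by positivity
        nlinarith
      exact le_of_mul_le_mul_right h4 hi0
    nlinarith
  -- prime powers
  have hQ : ∑ n ∈ (Ioc a (a + L)).filter (fun n => ¬ Nat.Prime n), (vonMangoldt n : ℝ) ≤ q := by
    refine le_trans ?_ hpp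
    have h1 := Chebyshev.psi_sub_theta_le (x := (2 : ℝ) ^ (i + 1)) (one_le_pow₀ (by norm_num))
    refine le_trans ?_ h1
    rw [Chebyshev.psi_sub_theta_eq_sum_not_prime]
    refine sum_le_sum_of_subset_of_nonneg ?_
      (fun i _ _ => ArithmeticFunction.vonMangoldt_nonneg)
    intro n hn
    simp only [mem_filter, mem_Ioc] at hn ⊢
    refine ⟨⟨by omega, ?_⟩, hn.2⟩
    have : ⌊(2 : ℝ) ^ (i + 1)⌋₊ = 2 ^ (i + 1) := by
      have := Nat.floor_natCast (R := ℝ) (2 ^ (i + 1))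
      push_cast at this
      exact this
    rw [this]
    exact hn.1.2.trans haL
  have h1 : ∑ n ∈ Ioc a (a + L), (vonMangoldt n : ℝ) ≤ (L : ℝ) - 2 * q := by
    rw [← sum_filter_add_sum_filter_not (Ioc a (a + L)) Nat.Prime]
    linarith
  have h4 : ∑ n ∈ Ioc u (u + (L - q)), (vonMangoldt n : ℝ) ≤ ∑ n ∈ Ioc a (a + L), vonMangoldt n :=
    sum_le_sum_of_subset_of_nonneg (Ioc_subset_Ioc hu (by omega))
      (fun i _ _ => ArithmeticFunction.vonMangoldt_nonneg)
  rw [sum_sub_distrib]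
  simp only [sum_const, Nat.card_Ioc, nsmul_eq_mul, mul_one]
  rw [show u + (L - q) - u = L - q by omega, Nat.cast_sub hqL]
  linarith

lemma cnt (T : Finset ℕ) (q X : ℕ) (g : ℕ → ℕ → ℕ) (f : ℕ → ℝ) (y : ℝ) (hf : ∀ u, 0 ≤ f u)
    (hg : ∀ j ∈ T, ∀ v < q, g j v < X)
    (hinj : ∀ j ∈ T, ∀ v < q, ∀ j' ∈ T, ∀ v' < q, g j v = g j' v' → j = j' ∧ v = v')
    (hy : ∀ j ∈ T, ∀ v < q, y ≤ f (g j v)) :
    (T.card : ℝ) * q * y ≤ ∑ u ∈ range X, f u := by
  have h1 : (T.card : ℝ) * q * y = ∑ _p ∈ T ×ˢ range q, y := by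
    rw [sum_const, card_product, card_range, nsmul_eq_mul]
    push_cast
    ring
  rw [h1]
  calc ∑ _p ∈ T ×ˢ range q, y ≤ ∑ p ∈ T ×ˢ range q, f (g p.1 p.2) := by
        refine sum_le_sum fun p hp => ?_
        simp only [mem_product, mem_range] at hp
        exact hy p.1 hp.1 p.2 hp.2
    _ = ∑ u ∈ (T ×ˢ range q).image (fun p => g p.1 p.2), f u := by
        rw [sum_image]
        intro p hp p' hp' he
        simp only [coe_product, Set.mem_prod, mem_coe, mem_range] at hp hp'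
        obtain ⟨e1, e2⟩ := hinj p.1 hp.1 p.2 hp.2 p'.1 hp'.1 p'.2 hp'.2 he
        exact Prod.ext e1 e2
    _ ≤ ∑ u ∈ range X, f u := by
        refine sum_le_sum_of_subset_of_nonneg ?_ (fun u _ _ => hf u)
        intro u hu
        simp only [mem_image, mem_product, mem_range, Prod.exists] at hu ⊢
        obtain ⟨j, v, ⟨hj, hv⟩, rfl⟩ := hu
        exact hg j hj v hv

lemma asym (θ : ℝ) (hθ : 1 / 2 < θ) (A : ℝ) (hA : 0 < A) (m : ℕ) :
    ∀ᶠ i : ℕ in atTop, A * ((i : ℝ) + 1) ^ m * √((2 : ℝ) ^ (i + 1)) ≤ (2 : ℝ) ^ (θ * i) := by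
  have hs : (0 : ℝ) < √2 := by positivity
  set r : ℝ := 2 ^ θ / √2 with hr
  have hr1 : 1 < r := by
    rw [hr, one_lt_div hs, Real.sqrt_eq_rpow]
    exact Real.rpow_lt_rpow_of_exponent_lt (by norm_num) hθ
  have hc : 0 < 1 / (A * √2 * 2 ^ m) := by positivity
  have h := (isLittleO_pow_const_const_pow_of_one_lt (R := ℝ) m hr1).bound hc
  filter_upwards [h, eventually_ge_atTop 1] with i hi h1
  have hi1 : (1 : ℝ) ≤ i := by exact_mod_cast h1
  rw [Real.norm_of_nonneg (by positivity), Real.norm_of_nonneg (by positivity)] at hi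
  have e1 : ((i : ℝ) + 1) ^ m ≤ 2 ^ m * (i : ℝ) ^ m := by
    rw [← mul_pow]
    exact pow_le_pow_left₀ (by positivity) (by linarith) m
  have e2 : √((2 : ℝ) ^ (i + 1)) = √2 * √2 ^ i := by
    rw [pow_succ, Real.sqrt_mul (by positivity)]
    rw [Real.sqrt_eq_rpow ((2 : ℝ) ^ i), ← Real.rpow_natCast, ← Real.rpow_natCast,
      ← Real.rpow_mul (by norm_num), Real.sqrt_eq_rpow, ← Real.rpow_mul (by norm_num)]
    rw [mul_comm, mul_comm (i : ℝ)]
  have e3 : (2 : ℝ) ^ (θ * i) = r ^ i * √2 ^ i := by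
    rw [← mul_pow, hr, div_mul_cancel₀ _ hs.ne', Real.rpow_mul (by norm_num), Real.rpow_natCast]
  rw [e2, e3]
  calc A * ((i : ℝ) + 1) ^ m * (√2 * √2 ^ i)
      ≤ A * (2 ^ m * (1 / (A * √2 * 2 ^ m) * r ^ i)) * (√2 * √2 ^ i) := by
        gcongr
        exact e1.trans (mul_le_mul_of_nonneg_left hi (by positivity))
    _ = r ^ i * √2 ^ i := by
        field_simp

lemma inj_aux (L j j' v v' : ℕ) (hv : v < L) (hv' : v' < L) (h : j * L + v' = j' * L + v) :
    j = j' ∧ v = v' := by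
  have hL : 0 < L := by omega
  have h1 : (j * L + v') / L = j := by
    rw [mul_comm, Nat.mul_add_div hL, Nat.div_eq_of_lt hv', add_zero]
  have h2 : (j' * L + v) / L = j' := by
    rw [mul_comm, Nat.mul_add_div hL, Nat.div_eq_of_lt hv, add_zero]
  have h3 : j = j' := by rw [← h1, ← h2, h]
  subst h3
  exact ⟨rfl, by omega⟩

theorem main (h : S_MS) : S_BLK := by
  classical
  intro θ ε hθ hθ1 hε
  obtain ⟨C₀, X₀, hMS⟩ := h
  obtain ⟨k, hk, hk1⟩ : ∃ k : ℕ, 4 ≤ ε * 2 ^ k ∧ 1 ≤ k := by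
    obtain ⟨k, hk⟩ := pow_unbounded_of_one_lt (4 / ε) (one_lt_two : (1 : ℝ) < 2)
    refine ⟨k + 1, ?_, by omega⟩
    rw [div_lt_iff₀ hε] at hk
    rw [pow_succ]
    have : (0 : ℝ) < 2 ^ k := by positivity
    nlinarith
  have hlog2 : 0 < Real.log 2 := Real.log_pos (by norm_num)
  have E3 := asym θ hθ (2 * 2 ^ k * Real.log 2) (by positivity) 1
  have E5 := asym θ hθ (2 * Real.log 2 ^ C₀) (by positivity) C₀
  have E2 : ∀ᶠ i : ℕ in atTop, ((k : ℝ) + 1) ≤ θ * i := by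
    have : Tendsto (fun i : ℕ => θ * (i : ℝ)) atTop atTop :=
      tendsto_natCast_atTop_atTop.const_mul_atTop (by linarith)
    exact this.eventually_ge_atTop _
  filter_upwards [E2, E3, E5, eventually_ge_atTop 2, eventually_ge_atTop (2 ^ k),
    eventually_ge_atTop X₀, eventually_ge_atTop (2 ^ 20 * (2 ^ k) ^ 3)] with
    i h2 h3 h5 hi2 hik hiX hi6
  set c : ℕ := ⌈θ * i⌉₊ with hc
  have hck : k + 1 ≤ c := by
    have : ((k + 1 : ℕ) : ℝ) ≤ (c : ℝ) := by
      push_cast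
      exact h2.trans (Nat.le_ceil _)
    exact_mod_cast this
  have hci : c ≤ i := by
    rw [hc, Nat.ceil_le]
    have : (0 : ℝ) ≤ i := by positivity
    nlinarith
  set q : ℕ := 2 ^ (c - k) with hq
  have hq0 : 0 < q := by positivity
  have hL : Ln θ i = 2 ^ k * q := by
    unfold Ln
    rw [← hc, hq, ← pow_add]
    congr 1
    omega
  set L : ℕ := Ln θ i with hLdef
  have hN : Nb θ i * L = 2 ^ i := by
    rw [hLdef]
    unfold Nb Ln
    rw [← hc, ← pow_add]
    congr 1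
    omega
  have hqL : 2 * q ≤ L := by
    rw [hL]
    exact Nat.mul_le_mul_right _ (by
      calc 2 = 2 ^ 1 := rfl
        _ ≤ 2 ^ k := Nat.pow_le_pow_right (by norm_num) hk1)
  have hL0 : 0 < L := by omega
  have hL2i : L ≤ 2 ^ i := by
    rw [hLdef]
    unfold Ln
    exact Nat.pow_le_pow_right (by norm_num) hci
  have hLr : (2 : ℝ) ^ (θ * i) ≤ L := by
    rw [hLdef]
    unfold Ln
    push_cast
    rw [← Real.rpow_natCast]
    exact Real.rpow_le_rpow_of_exponent_le (by norm_num) (Nat.le_ceil _)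
  have hLiq : L ≤ i * q := by
    rw [hL]
    exact Nat.mul_le_mul_right _ hik
  have hlX : Real.log ((2 : ℝ) ^ (i + 1)) = ((i : ℝ) + 1) * Real.log 2 := by
    rw [Real.log_pow]; push_cast; ring
  have hpp : 2 * √((2 : ℝ) ^ (i + 1)) * Real.log ((2 : ℝ) ^ (i + 1)) ≤ q := by
    have h4 : (2 : ℝ) ^ k * (2 * √((2 : ℝ) ^ (i + 1)) * Real.log ((2 : ℝ) ^ (i + 1))) ≤
        2 ^ k * q := by
      have : ((2 : ℝ) ^ k * q) = (L : ℝ) := by rw [hL]; push_cast; ring
      rw [this]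
      refine le_trans (le_of_eq ?_) (h3.trans hLr)
      rw [hlX]
      ring
    exact le_of_mul_le_mul_left h4 (by positivity)
  set X : ℕ := 2 ^ (i + 1) with hX
  have hXr : (X : ℝ) = (2 : ℝ) ^ (i + 1) := by rw [hX]; push_cast; rfl
  have hX0 : X₀ ≤ X := hiX.trans ((Nat.lt_two_pow_self (n := i)).le.trans
    (Nat.pow_le_pow_right (by norm_num) (by omega)))
  have hlow : (X : ℝ) ^ (1 / 2 : ℝ) * (Real.log X) ^ C₀ ≤ (L : ℝ) / 2 := by
    rw [hXr, ← Real.sqrt_eq_rpow, hlX, mul_pow]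
    have := h5.trans hLr
    linarith
  have hqr : 2 * (q : ℝ) ≤ L := by exact_mod_cast hqL
  have M1 := hMS X hX0 (L + q) (by push_cast; linarith [(Nat.cast_nonneg q : (0 : ℝ) ≤ q)])
    (by rw [hX, pow_succ]; omega)
  have M2 := hMS X hX0 (L - q) (by rw [Nat.cast_sub (by omega)]; linarith)
    (by rw [hX, pow_succ]; omega)
  -- positions
  have ha : ∀ j, 2 ^ i ≤ bl θ i j := fun j => by unfold bl; omega
  have haL : ∀ j, j < Nb θ i → bl θ i j + L ≤ X := by
    intro j hj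
    have h1 : (j + 1) * L ≤ Nb θ i * L := Nat.mul_le_mul_right _ hj
    rw [hN] at h1
    rw [hX, pow_succ]
    unfold bl
    rw [← hLdef]
    nlinarith
  have h2i : 2 ≤ 2 ^ i := by
    calc 2 = 2 ^ 1 := rfl
      _ ≤ 2 ^ i := Nat.pow_le_pow_right (by norm_num) (by omega)
  set T1 := (range (Nb θ i)).filter (fun j =>
    ((L : ℝ) + 4 * q) / Real.log (bl θ i j) < pr (bl θ i j) L) with hT1
  set T2 := (range (Nb θ i)).filter (fun j =>
    (pr (bl θ i j) L : ℝ) < ((L : ℝ) - 4 * q) / Real.log (bl θ i j)) with hT2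
  have hsub : ((range (Nb θ i)).filter (fun j => ε * (L / Real.log (bl θ i j)) <
    |(pr (bl θ i j) L : ℝ) - L / Real.log (bl θ i j)|)) ⊆ T1 ∪ T2 := by
    intro j hj
    simp only [mem_filter] at hj
    have hl : 0 < Real.log (bl θ i j) :=
      Real.log_pos (by have := ha j; exact_mod_cast (by omega : 1 < bl θ i j))
    have h4q : 4 * (q : ℝ) / Real.log (bl θ i j) ≤ ε * (L / Real.log (bl θ i j)) := by
      rw [← mul_div_assoc]
      refine div_le_div_of_nonneg_right ?_ hl.le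
      rw [hL]
      push_cast
      have : (0 : ℝ) ≤ q := by positivity
      nlinarith
    rw [mem_union, hT1, hT2, mem_filter, mem_filter, add_div, sub_div]
    rcases lt_abs.1 hj.2 with h | h
    · left
      exact ⟨hj.1, by linarith⟩
    · right
      exact ⟨hj.1, by linarith⟩
  have C1 : (T1.card : ℝ) * q * (q : ℝ) ^ 2 ≤ X * ((L + q : ℕ) : ℝ) ^ 2 / (Real.log X) ^ 16 := by
    refine le_trans ?_ M1
    refine cnt T1 q X (fun j v => bl θ i j - v)
      (fun u => (∑ n ∈ Ioc u (u + (L + q)), (vonMangoldt n - 1)) ^ 2) _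
      (fun u => sq_nonneg _) ?_ ?_ ?_
    · intro j hj v hv
      rw [hT1, mem_filter, mem_range] at hj
      have := haL j hj.1
      omega
    · intro j hj v hv j' hj' v' hv' he
      have h1 := ha j
      have h2 := ha j'
      refine inj_aux L j j' v v' (by omega) (by omega) ?_
      have e1 : bl θ i j = 2 ^ i + j * L := rfl
      have e2 : bl θ i j' = 2 ^ i + j' * L := rfl
      omega
    · intro j hj v hv
      rw [hT1, mem_filter, mem_range] at hj
      have h1 := ha j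
      have := plus (bl θ i j) L q (by omega) hj.2 (bl θ i j - v) (by omega) (by omega)
      exact pow_le_pow_left₀ (by positivity) this 2
  have C2 : (T2.card : ℝ) * q * (q : ℝ) ^ 2 ≤ X * ((L - q : ℕ) : ℝ) ^ 2 / (Real.log X) ^ 16 := by
    refine le_trans ?_ M2
    refine cnt T2 q X (fun j v => bl θ i j + v)
      (fun u => (∑ n ∈ Ioc u (u + (L - q)), (vonMangoldt n - 1)) ^ 2) _
      (fun u => sq_nonneg _) ?_ ?_ ?_
    · intro j hj v hv
      rw [hT2, mem_filter, mem_range] at hj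
      have := haL j hj.1
      omega
    · intro j hj v hv j' hj' v' hv' he
      have e1 : bl θ i j = 2 ^ i + j * L := rfl
      have e2 : bl θ i j' = 2 ^ i + j' * L := rfl
      obtain ⟨a1, a2⟩ := inj_aux L j j' v' v (by omega) (by omega) (by omega)
      exact ⟨a1, a2.symm⟩
    · intro j hj v hv
      rw [hT2, mem_filter, mem_range] at hj
      have := minus i (bl θ i j) L q (by omega) (ha j) (haL j hj.1) hLiq (by omega) hpp hj.2
        (bl θ i j + v) (by omega) (by omega)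
      have hq' : (0 : ℝ) ≤ q := by positivity
      nlinarith
  have hD : 16 * (2 ^ k : ℝ) ^ 3 * i ≤ (Real.log X) ^ 16 := by
    rw [hXr, hlX]
    have hi0 : (1 : ℝ) ≤ i := by exact_mod_cast (by omega : 1 ≤ i)
    have hl : (1 / 2 : ℝ) ≤ Real.log 2 := by
      have := Real.log_two_gt_d9
      linarith
    have a1 : ((i : ℝ) / 2) ^ 16 ≤ (((i : ℝ) + 1) * Real.log 2) ^ 16 := by
      refine pow_le_pow_left₀ (by positivity) ?_ 16
      nlinarith
    refine le_trans ?_ a1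
    have a2 : (2 : ℝ) ^ 20 * (2 ^ k) ^ 3 ≤ i := by exact_mod_cast hi6
    have a3 : (i : ℝ) ^ 2 ≤ (i : ℝ) ^ 16 := pow_le_pow_right₀ hi0 (by norm_num)
    have a4 : ((i : ℝ) / 2) ^ 16 = (i : ℝ) ^ 16 / 2 ^ 16 := by rw [div_pow]
    rw [a4, le_div_iff₀ (by positivity)]
    nlinarith
  have hlogX : 0 < Real.log X := by
    rw [hXr, hlX]
    positivity
  have hD0 : 0 < (Real.log X) ^ 16 := by positivity
  have hXL : (X : ℝ) = 2 * (Nb θ i * L) := by
    rw [hXr]
    have : ((Nb θ i * L : ℕ) : ℝ) = ((2 ^ i : ℕ) : ℝ) := by rw [hN]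
    push_cast at this
    rw [this, pow_succ]
    ring
  have hLq3 : (L : ℝ) ^ 3 = (2 ^ k) ^ 3 * q ^ 3 := by
    rw [hL]; push_cast; ring
  have hq0' : (0 : ℝ) < q := by exact_mod_cast hq0
  have hX0' : (0 : ℝ) ≤ X := by positivity
  have hfin : ((T1.card : ℝ) + T2.card) * (Real.log X) ^ 16 ≤ 16 * (2 ^ k) ^ 3 * Nb θ i := by
    rw [le_div_iff₀ hD0] at C1 C2
    have b1 : ((L + q : ℕ) : ℝ) ^ 2 ≤ 4 * (L : ℝ) ^ 2 := by
      have : ((L + q : ℕ) : ℝ) ≤ 2 * L := by push_cast; linarith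
      calc ((L + q : ℕ) : ℝ) ^ 2 ≤ (2 * (L : ℝ)) ^ 2 := pow_le_pow_left₀ (by positivity) this 2
        _ = _ := by ring
    have b2 : ((L - q : ℕ) : ℝ) ^ 2 ≤ 4 * (L : ℝ) ^ 2 := by
      have : ((L - q : ℕ) : ℝ) ≤ 2 * L := by
        have : ((L - q : ℕ) : ℝ) ≤ L := by exact_mod_cast Nat.sub_le _ _
        have h0 : (0 : ℝ) ≤ L := by positivity
        linarith
      calc ((L - q : ℕ) : ℝ) ^ 2 ≤ (2 * (L : ℝ)) ^ 2 := pow_le_pow_left₀ (by positivity) this 2
        _ = _ := by ring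
    have b3 := mul_le_mul_of_nonneg_left b1 hX0'
    have b4 := mul_le_mul_of_nonneg_left b2 hX0'
    have b5 : ((T1.card : ℝ) + T2.card) * (Real.log X) ^ 16 * (q : ℝ) ^ 3 ≤
        16 * (2 ^ k) ^ 3 * Nb θ i * (q : ℝ) ^ 3 := by
      have e1 : (X : ℝ) * (4 * (L : ℝ) ^ 2) = 8 * Nb θ i * (2 ^ k) ^ 3 * (q : ℝ) ^ 3 := by
        rw [hXL]
        have : 2 * ((Nb θ i : ℝ) * L) * (4 * (L : ℝ) ^ 2) = 8 * Nb θ i * (L : ℝ) ^ 3 := by ring
        rw [this, hLq3]
        ring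
      rw [e1] at b3 b4
      have e2 : ((T1.card : ℝ) + T2.card) * (Real.log X) ^ 16 * (q : ℝ) ^ 3 =
        (T1.card : ℝ) * q * (q : ℝ) ^ 2 * (Real.log X) ^ 16 +
        (T2.card : ℝ) * q * (q : ℝ) ^ 2 * (Real.log X) ^ 16 := by ring
      rw [e2]
      linarith
    exact le_of_mul_le_mul_right b5 (by positivity)
  have hcard : (((range (Nb θ i)).filter (fun j => ε * (L / Real.log (bl θ i j)) <
    |(pr (bl θ i j) L : ℝ) - L / Real.log (bl θ i j)|)).card : ℝ) ≤ (T1.card : ℝ) + T2.card := by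
    exact_mod_cast (card_le_card hsub).trans (card_union_le _ _)
  refine (mul_le_mul_of_nonneg_right hcard (by positivity)).trans ?_
  have hT0 : (0 : ℝ) ≤ (T1.card : ℝ) + T2.card := by positivity
  have hk3 : (0 : ℝ) < 16 * (2 ^ k) ^ 3 := by positivity
  have : ((T1.card : ℝ) + T2.card) * i * (16 * (2 ^ k) ^ 3) ≤ Nb θ i * (16 * (2 ^ k) ^ 3) := by
    have := mul_le_mul_of_nonneg_left hD hT0
    linarith
  exact le_of_mul_le_mul_right this hk3

end

end Pool.Agent.H27.PB.BLK
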