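import Pool.Agent.H27.PB.Stm

set_option autoImplicit false

/-!
PB-FEW (by helper4): a positive proportion of the integers of an interval with at most the expected number of primes
has at most `1 + δ` times the expected number of primes in all windows to the right (greedy selection).
-/

open Filter Topology MeasureTheory Finset

namespace Pool.Agent.H27.PB

noncomputable section

/-! ### proof -/

/-- primes in `(a, T]` -/
def fewN (a T : ℕ) : ℕ := ((Ioc a T).filter Nat.Prime).card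

theorem few_pr_eq (x H : ℝ) (T : ℕ) (hT : x + H ≤ T) :
    pr x H = ((Ioc 0 T).filter (fun p : ℕ => p.Prime ∧ x < p ∧ (p : ℝ) ≤ x + H)).card := by
  unfold pr
  rw [← Set.ncard_coe_finset]
  congr 1
  ext p
  simp only [Set.mem_ofPred_eq, coe_filter, mem_Ioc]
  constructor
  · rintro ⟨h1, h2, h3⟩
    refine ⟨⟨h1.pos, ?_⟩, h1, h2, h3⟩
    exact_mod_cast h3.trans hT
  · rintro ⟨-, h⟩
    exact h

theorem few_step (x H : ℝ) (a a' T : ℕ) (hT : x + H ≤ T) (hax : (a : ℝ) ≤ x) (ha' : x + H ≤ a') 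
    (haa : a ≤ a') :
    pr x H + fewN a' T ≤ fewN a T := by
  rw [few_pr_eq x H T hT]
  unfold fewN
  rw [← card_union_of_disjoint]
  · apply card_le_card
    intro p hp
    simp only [mem_union, mem_filter, mem_Ioc] at hp ⊢
    rcases hp with ⟨⟨h0, h1⟩, h2, h3, h4⟩ | ⟨⟨h0, h1⟩, h2⟩
    · refine ⟨⟨?_, h1⟩, h2⟩
      exact_mod_cast lt_of_le_of_lt hax h3
    · exact ⟨⟨by omega, h1⟩, h2⟩
  · rw [disjoint_left]
    intro p hp hq
    simp only [mem_filter, mem_Ioc] at hp hq
    have h1 : (p : ℝ) ≤ a' := hp.2.2.2.trans ha'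
    have h2 : p ≤ a' := by exact_mod_cast h1
    omega

open Classical in
/-- the greedy selection -/
theorem few_greedy (Bad : ℕ → Prop) (X M T : ℕ) (κ : ℝ) (hκ : 0 ≤ κ)
    (hB : ∀ m, X < m → m ≤ M → Bad m → ∃ x H : ℝ, (m : ℝ) ≤ x ∧ x ≤ m + 1 ∧ 0 ≤ H ∧ x + H ≤ T ∧
      H + 3 ≤ κ * pr x H) :
    ∀ n a : ℕ, X ≤ a → M - a ≤ n → (((Ioc a M).filter Bad).card : ℝ) ≤ κ * fewN a T := by
  intro n
  induction n using Nat.strong_induction_on with
  | _ n ih =>
    intro a hXa hn
    by_cases hne : ((Ioc a M).filter Bad).Nonempty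
    · -- the least bad element
      set m := ((Ioc a M).filter Bad).min' hne with hm
      have hmem : m ∈ (Ioc a M).filter Bad := min'_mem _ _
      have hmem' := hmem
      simp only [mem_filter, mem_Ioc] at hmem'
      obtain ⟨⟨h1, h2⟩, h3⟩ := hmem'
      obtain ⟨x, H, hx1, hx2, hH, hT, hκH⟩ := hB m (by omega) h2 h3
      set a' := ⌈x + H⌉₊ with ha'
      have ha'1 : x + H ≤ a' := Nat.le_ceil _
      have ha'2 : (a' : ℝ) < x + H + 1 := Nat.ceil_lt_add_one (by
        have : (0 : ℝ) ≤ m := Nat.cast_nonneg m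
        linarith)
      have hma' : m ≤ a' := by
        have : (m : ℝ) ≤ a' := by linarith
        exact_mod_cast this
      have haa' : a ≤ a' := by omega
      have hax : (a : ℝ) ≤ x := by
        have : (a : ℝ) ≤ m := by exact_mod_cast h1.le
        linarith
      have hstep := few_step x H a a' T hT hax ha'1 haa'
      have hih := ih (M - a') (by omega) a' (by omega) le_rfl
      -- the bad ones
      have hsub : (Ioc a M).filter Bad ⊆ Icc m a' ∪ (Ioc a' M).filter Bad := by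
        intro q hq
        have hmq : m ≤ q := min'_le _ _ hq
        simp only [mem_union, mem_Icc, mem_filter, mem_Ioc] at hq ⊢
        by_cases h : q ≤ a'
        · left; exact ⟨hmq, h⟩
        · right; exact ⟨⟨by omega, hq.1.2⟩, hq.2⟩
      have hcard := (card_le_card hsub).trans (card_union_le _ _)
      have hIcc : ((Icc m a').card : ℝ) ≤ H + 3 := by
        rw [Nat.card_Icc]
        push_cast [Nat.cast_sub (show m ≤ a' + 1 by omega)]
        linarith
      have hc2 : (((Ioc a M).filter Bad).card : ℝ) ≤ (Icc m a').card + ((Ioc a' M).filter Bad).card := by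
        exact_mod_cast hcard
      have hs2 : (pr x H : ℝ) + fewN a' T ≤ fewN a T := by exact_mod_cast hstep
      nlinarith [mul_le_mul_of_nonneg_left hs2 hκ]
    · rw [not_nonempty_iff_eq_empty] at hne
      rw [hne]
      simp only [card_empty, CharP.cast_eq_zero]
      positivity

theorem few_pr_fewN (X Y : ℕ) : pr X Y = fewN X (X + Y) := by
  rw [few_pr_eq X Y (X + Y) (by push_cast; exact le_rfl)]
  unfold fewN
  congr 1
  ext p
  simp only [mem_filter, mem_Ioc]
  constructor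
  · rintro ⟨⟨h0, h1⟩, h2, h3, h4⟩
    exact ⟨⟨by exact_mod_cast h3, h1⟩, h2⟩
  · rintro ⟨⟨h0, h1⟩, h2⟩
    exact ⟨⟨by omega, h1⟩, h2, by exact_mod_cast h0, by exact_mod_cast h1⟩

theorem few_fewN_add (X A B : ℕ) : fewN X (A + B) ≤ fewN X A + B := by
  unfold fewN
  have : (Ioc X (A + B)).filter Nat.Prime ⊆ (Ioc X A).filter Nat.Prime ∪ Ioc A (A + B) := by
    intro p hp
    simp only [mem_filter, mem_Ioc, mem_union] at hp ⊢
    by_cases h : p ≤ A
    · left; exact ⟨⟨hp.1.1, h⟩, hp.2⟩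
    · right; omega
  refine (card_le_card this).trans ((card_union_le _ _).trans ?_)
  simp

theorem few_lim (δ ρ K : ℝ) (hρ : 0 < ρ) (hρ1 : ρ < 1) (hK : 0 < K) :
    Tendsto (fun x : ℝ => (1 + 3 / (K * Real.log x)) * (Real.log (3 * x) / Real.log x) *
      ((1 + δ / 8) + (2 + (3 * x) ^ (1 - ρ)) * Real.log x / x ^ (1 - ρ / 2))) atTop
      (𝓝 ((1 + 0) * 1 * ((1 + δ / 8) + 0))) := by
  have hlog := Real.tendsto_log_atTop
  have h1 : Tendsto (fun x : ℝ => 3 / (K * Real.log x)) atTop (𝓝 0) :=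
    Tendsto.const_div_atTop (hlog.const_mul_atTop hK) 3
  have h2 : Tendsto (fun x : ℝ => Real.log (3 * x) / Real.log x) atTop (𝓝 1) := by
    have h3 : Tendsto (fun x : ℝ => Real.log 3 / Real.log x + 1) atTop (𝓝 (0 + 1)) :=
      (Tendsto.const_div_atTop hlog _).add tendsto_const_nhds
    rw [zero_add] at h3
    refine h3.congr' ?_
    filter_upwards [eventually_gt_atTop 1] with x hx
    have hl : 0 < Real.log x := Real.log_pos hx
    rw [Real.log_mul (by norm_num) (by linarith)]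
    field_simp
  have h4 : Tendsto (fun x : ℝ => (2 + (3 * x) ^ (1 - ρ)) * Real.log x / x ^ (1 - ρ / 2)) atTop (𝓝 0) := by
    have ha : Tendsto (fun x : ℝ => Real.log x / x ^ (1 - ρ / 2)) atTop (𝓝 0) :=
      (isLittleO_log_rpow_atTop (by linarith)).tendsto_div_nhds_zero
    have hb : Tendsto (fun x : ℝ => Real.log x / x ^ (ρ / 2)) atTop (𝓝 0) :=
      (isLittleO_log_rpow_atTop (by linarith)).tendsto_div_nhds_zero
    have hc : Tendsto (fun x : ℝ => 2 * (Real.log x / x ^ (1 - ρ / 2)) +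
        3 ^ (1 - ρ) * (Real.log x / x ^ (ρ / 2))) atTop (𝓝 (2 * 0 + 3 ^ (1 - ρ) * 0)) :=
      (ha.const_mul _).add (hb.const_mul _)
    simp only [mul_zero, add_zero] at hc
    refine hc.congr' ?_
    filter_upwards [eventually_gt_atTop 1] with x hx
    have hx0 : 0 < x := by linarith
    have e1 : x ^ (1 - ρ / 2) = x ^ (1 - ρ) * x ^ (ρ / 2) := by
      rw [← Real.rpow_add hx0]; congr 1; ring
    rw [Real.mul_rpow (by norm_num) hx0.le, e1]
    have p1 : 0 < x ^ (1 - ρ) := Real.rpow_pos_of_pos hx0 _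
    have p2 : 0 < x ^ (ρ / 2) := Real.rpow_pos_of_pos hx0 _
    field_simp
  exact ((tendsto_const_nhds.add h1).mul h2).mul (tendsto_const_nhds.add h4)

theorem few : S_FEW := by
  classical
  intro δ ρ K hδ hδ1 hρ hρ1 hK
  refine ⟨δ / 16, by positivity, ?_⟩
  have hlim := (few_lim δ ρ K hρ hρ1 hK).comp tendsto_natCast_atTop_atTop (α := ℕ)
  have hlt : (1 + 0) * 1 * ((1 + δ / 8) + 0) < (1 + δ) * (1 - δ / 16) := by nlinarith
  have hev := hlim.eventually_lt_const hlt
  filter_upwards [hev, eventually_ge_atTop 3] with X hX hX3 Y hY1 hY2 hpr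
  simp only [Function.comp] at hX
  have hXr : (3 : ℝ) ≤ X := by exact_mod_cast hX3
  have hℓ : 0 < Real.log X := Real.log_pos (by linarith)
  have hL : 0 < Real.log (3 * X) := Real.log_pos (by linarith)
  have hYr : (Y : ℝ) ≤ X := by exact_mod_cast hY2
  set ℓ := Real.log X with hℓd
  set L := Real.log (3 * X) with hLd
  set Hm : ℝ := (3 * X) ^ (1 - ρ) with hHm
  have hHm0 : 0 < Hm := Real.rpow_pos_of_pos (by linarith) _
  set P : ℝ := (X : ℝ) ^ (1 - ρ / 2) with hP
  have hP0 : 0 < P := Real.rpow_pos_of_pos (by linarith) _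
  set κ : ℝ := (1 + 3 / (K * ℓ)) * L / (1 + δ) with hκd
  have hκ : 0 ≤ κ := by positivity
  set D : ℕ := 1 + ⌈Hm⌉₊ with hD
  set T : ℕ := (X + Y) + D with hT
  have hDr : (D : ℝ) ≤ Hm + 2 := by
    have := Nat.ceil_lt_add_one hHm0.le
    rw [hD]; push_cast; linarith
  have hDr' : Hm + 1 ≤ D := by
    have := Nat.le_ceil Hm
    rw [hD]; push_cast; linarith
  set Bad : ℕ → Prop := fun m => m ∉ unitSet (Few δ ρ K) with hBad
  have hB : ∀ m, X < m → m ≤ X + Y → Bad m → ∃ x H : ℝ, (m : ℝ) ≤ x ∧ x ≤ m + 1 ∧ 0 ≤ H ∧ x + H ≤ T ∧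
      H + 3 ≤ κ * pr x H := by
    intro m hm1 hm2 hbad
    simp only [hBad, unitSet, Few, Set.mem_ofPred_eq] at hbad
    push Not at hbad
    obtain ⟨x, hx1, hx2, H, hH1, hH2, hH3⟩ := hbad
    have hmX : (X : ℝ) ≤ m := by exact_mod_cast hm1.le
    have hmY : (m : ℝ) ≤ X + Y := by exact_mod_cast hm2
    have hxX : (X : ℝ) ≤ x := hmX.trans hx1
    have hx0 : 0 < x := by linarith
    have hx3 : x ≤ 3 * X := by linarith
    have hlx : ℓ ≤ Real.log x := Real.log_le_log (by linarith) hxX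
    have hlx0 : 0 < Real.log x := by linarith
    have hlx2 : Real.log x ≤ L := Real.log_le_log hx0 hx3
    have hH0 : K * ℓ ≤ H := le_trans (by nlinarith) hH1
    have hKl : 0 < K * ℓ := by positivity
    have hHpos : 0 < H := by linarith
    have hHm1 : H ≤ Hm := hH2.trans (Real.rpow_le_rpow hx0.le hx3 (by linarith))
    refine ⟨x, H, hx1, hx2, hHpos.le, ?_, ?_⟩
    · rw [hT]; push_cast; linarith
    · have h3 : 3 ≤ 3 / (K * ℓ) * H := by
        rw [div_mul_eq_mul_div, le_div_iff₀ hKl]; linarith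
      have h4 : (1 + δ) * H / L ≤ pr x H := by
        refine le_trans ?_ hH3.le
        exact div_le_div_of_nonneg_left (by positivity) hlx0 hlx2
      have h5 : κ * ((1 + δ) * H / L) = (1 + 3 / (K * ℓ)) * H := by
        rw [hκd]; field_simp
      calc H + 3 ≤ (1 + 3 / (K * ℓ)) * H := by linarith
        _ = κ * ((1 + δ) * H / L) := h5.symm
        _ ≤ κ * pr x H := mul_le_mul_of_nonneg_left h4 hκ
  have hg := few_greedy Bad X (X + Y) T κ hκ hB _ X le_rfl le_rfl
  have hFN : (fewN X T : ℝ) ≤ (1 + δ / 8) * (Y / ℓ) + (2 + Hm) := by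
    have h1 := few_fewN_add X (X + Y) D
    rw [← few_pr_fewN] at h1
    have h2 : (fewN X T : ℝ) ≤ pr X Y + D := by exact_mod_cast h1
    linarith
  have hbadle : (((Ioc X (X + Y)).filter Bad).card : ℝ) ≤ (1 - δ / 16) * Y := by
    have hg' : (((Ioc X (X + Y)).filter Bad).card : ℝ) ≤ κ * fewN X T := by convert hg
    refine le_trans hg' ?_
    have hY0 : 0 < (Y : ℝ) := by linarith
    have h1 : (2 + Hm) * ℓ ≤ (2 + Hm) * ℓ / P * Y := by
      rw [div_mul_eq_mul_div, le_div_iff₀ hP0]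
      exact mul_le_mul_of_nonneg_left hY1 (by positivity)
    have h2 : (1 + δ / 8) * (Y / ℓ) + (2 + Hm) ≤ ((1 + δ / 8) + (2 + Hm) * ℓ / P) * Y / ℓ := by
      rw [le_div_iff₀ hℓ]
      have : ((1 + δ / 8) * (Y / ℓ) + (2 + Hm)) * ℓ = (1 + δ / 8) * Y + (2 + Hm) * ℓ := by
        field_simp
      rw [this]
      linarith
    calc κ * fewN X T ≤ κ * (((1 + δ / 8) + (2 + Hm) * ℓ / P) * Y / ℓ) :=
          mul_le_mul_of_nonneg_left (hFN.trans h2) hκ
      _ = ((1 + 3 / (K * ℓ)) * (L / ℓ) * ((1 + δ / 8) + (2 + Hm) * ℓ / P)) * Y / (1 + δ) := by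
          rw [hκd]; field_simp
      _ ≤ ((1 + δ) * (1 - δ / 16)) * Y / (1 + δ) := by
          apply div_le_div_of_nonneg_right _ (by positivity)
          exact mul_le_mul_of_nonneg_right hX.le hY0.le
      _ = (1 - δ / 16) * Y := by field_simp
  have htot : (((Ioc X (X + Y)).filter (fun m => m ∈ unitSet (Few δ ρ K))).card : ℝ) +
      ((Ioc X (X + Y)).filter Bad).card = Y := by
    have := card_filter_add_card_filter_not (s := Ioc X (X + Y)) (fun m => m ∈ unitSet (Few δ ρ K))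
    rw [Nat.card_Ioc] at this
    have h2 : X + Y - X = Y := by omega
    rw [h2] at this
    exact_mod_cast this
  linarith

end

end Pool.Agent.H27.PB
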