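import Pool.Agent.H27.PB.Stm

/-! Proof of `S_BAL → S_MANY` (helper71 for project PB). -/

set_option autoImplicit false

open Filter Topology MeasureTheory Finset

namespace Pool.Agent.H27.PB

lemma many_finite (x H : ℝ) : {p : ℕ | p.Prime ∧ x < p ∧ (p : ℝ) ≤ x + H}.Finite := by
  apply Set.Finite.subset (Finset.finite_toSet (Finset.range (⌊x + H⌋₊ + 1)))
  rintro q ⟨-, -, hq⟩
  rw [mem_coe, mem_range]
  exact Nat.lt_succ_of_le (Nat.le_floor hq)

lemma many_pr_mono {x H y I : ℝ} (h1 : x ≤ y) (h2 : y + I ≤ x + H) : pr y I ≤ pr x H := by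
  unfold pr
  apply Set.ncard_le_ncard _ (many_finite x H)
  rintro q ⟨q1, q2, q3⟩
  exact ⟨q1, lt_of_le_of_lt h1 q2, q3.trans h2⟩

lemma many_card_le_pr (D : Finset ℕ) (x H : ℝ)
    (hD : ∀ q ∈ D, q.Prime ∧ x < q ∧ (q : ℝ) ≤ x + H) : D.card ≤ pr x H := by
  unfold pr
  rw [← Set.ncard_coe_finset]
  apply Set.ncard_le_ncard _ (many_finite x H)
  intro q hq
  exact hD q hq

open Classical in
/-- greedy selection from the left -/
lemma many_greedy (κ h0 h1 : ℝ) (hκ : 0 ≤ κ) (hh0 : 0 < h0) (D : Finset ℕ) :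
    (∀ p ∈ D, ∃ H : ℝ, h0 ≤ H ∧ H ≤ h1 ∧
      ((D.filter (fun q : ℕ => (p : ℝ) < q ∧ (q : ℝ) ≤ p + H)).card : ℝ) ≤ κ * H) →
    ∀ a b : ℝ, (∀ p ∈ D, a ≤ (p : ℝ) ∧ (p : ℝ) ≤ b) → a ≤ b + h1 →
      (D.card : ℝ) ≤ (κ + 1 / h0) * (b + h1 - a) := by
  induction D using Finset.strongInduction with
  | H D ih =>
    intro hD a b hab hb
    have hk : 0 ≤ κ + 1 / h0 := by positivity
    rcases D.eq_empty_or_nonempty with h | h
    · subst h
      simp only [card_empty, Nat.cast_zero]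
      exact mul_nonneg hk (by linarith)
    · obtain ⟨p, hp⟩ : ∃ p, p = D.min' h := ⟨_, rfl⟩
      have hpD : p ∈ D := hp ▸ D.min'_mem h
      obtain ⟨H, hH1, hH2, hH3⟩ := hD p hpD
      obtain ⟨ha, hpb⟩ := hab p hpD
      have hss : D.filter (fun q : ℕ => (p : ℝ) + H < q) ⊂ D := by
        refine (Finset.filter_ssubset).2 ⟨p, hpD, ?_⟩
        intro hlt
        linarith
      have h2 := ih _ hss (by
        intro q hq
        rw [Finset.mem_filter] at hq
        obtain ⟨H', e1, e2, e3⟩ := hD q hq.1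
        refine ⟨H', e1, e2, le_trans ?_ e3⟩
        rw [Nat.cast_le]
        apply Finset.card_le_card
        intro r hr
        rw [Finset.mem_filter, Finset.mem_filter] at hr
        rw [Finset.mem_filter]
        exact ⟨hr.1.1, hr.2⟩) (p + H) b (by
        intro q hq
        rw [Finset.mem_filter] at hq
        exact ⟨hq.2.le, (hab q hq.1).2⟩) (by linarith)
      have h3 : D ⊆ ({p} ∪ D.filter (fun q : ℕ => (p : ℝ) < q ∧ (q : ℝ) ≤ p + H)) ∪
          D.filter (fun q : ℕ => (p : ℝ) + H < q) := by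
        intro q hq
        rw [Finset.mem_union, Finset.mem_union, Finset.mem_filter, Finset.mem_filter,
          Finset.mem_singleton]
        by_cases e1 : (p : ℝ) + H < q
        · exact Or.inr ⟨hq, e1⟩
        · left
          have e2 : p ≤ q := hp ▸ D.min'_le q hq
          rcases e2.eq_or_lt with e3 | e3
          · exact Or.inl e3.symm
          · exact Or.inr ⟨hq, by exact_mod_cast e3, not_lt.1 e1⟩
      have h4 := (Finset.card_le_card h3).trans ((Finset.card_union_le _ _).trans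
        (Nat.add_le_add_right (Finset.card_union_le _ _) _))
      rw [Finset.card_singleton] at h4
      have h5 : (D.card : ℝ) ≤ 1 +
          ((D.filter (fun q : ℕ => (p : ℝ) < q ∧ (q : ℝ) ≤ p + H)).card : ℝ) +
          ((D.filter (fun q : ℕ => (p : ℝ) + H < q)).card : ℝ) := by exact_mod_cast h4
      have h6 : (1 : ℝ) ≤ 1 / h0 * H := by
        rw [one_div, inv_mul_eq_div, le_div_iff₀ hh0]
        linarith
      calc (D.card : ℝ) ≤ 1 + κ * H + (κ + 1 / h0) * (b + h1 - (p + H)) := by linarith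
        _ ≤ 1 / h0 * H + κ * H + (κ + 1 / h0) * (b + h1 - (p + H)) := by linarith
        _ = (κ + 1 / h0) * (b + h1 - p) := by ring
        _ ≤ (κ + 1 / h0) * (b + h1 - a) := mul_le_mul_of_nonneg_left (by linarith) hk

/-- the prime `p` is deficient -/
def Defic (δ K₁ η L Y : ℝ) (p : ℕ) : Prop :=
  ∃ H : ℝ, K₁ * L ≤ H ∧ H ≤ η * Y ∧ (pr p H : ℝ) < (1 - δ / 2) * H / L

open Classical in
lemma many_defic (δ : ℝ) (hδ : 0 < δ) (hδ1 : δ < 1) (X Y : ℕ) (L : ℝ) (hL : 0 < L) :
    (((Ioc X (X + Y)).filter (fun p => p.Prime ∧ Defic δ (16 / δ) (δ / 16) L Y p)).card : ℝ) ≤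
      (1 - 3 * δ / 8) * (Y / L) := by
  have hY0 : (0 : ℝ) ≤ Y := Nat.cast_nonneg _
  have h1 := many_greedy ((1 - δ / 2) / L) (16 / δ * L) (δ / 16 * Y)
    (div_nonneg (by linarith) hL.le) (by positivity)
    ((Ioc X (X + Y)).filter (fun p => p.Prime ∧ Defic δ (16 / δ) (δ / 16) L Y p)) (by
      intro p hp
      rw [Finset.mem_filter] at hp
      obtain ⟨-, -, H, e1, e2, e3⟩ := hp
      refine ⟨H, e1, e2, ?_⟩
      have e4 : (Finset.filter (fun q : ℕ => (p : ℝ) < q ∧ (q : ℝ) ≤ p + H)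
          ((Ioc X (X + Y)).filter (fun p => p.Prime ∧ Defic δ (16 / δ) (δ / 16) L Y p))).card ≤
          pr p H := by
        apply many_card_le_pr
        intro q hq
        rw [Finset.mem_filter, Finset.mem_filter] at hq
        exact ⟨hq.1.2.1, hq.2.1, hq.2.2⟩
      have e5 : ((Finset.filter (fun q : ℕ => (p : ℝ) < q ∧ (q : ℝ) ≤ p + H)
          ((Ioc X (X + Y)).filter (fun p => p.Prime ∧ Defic δ (16 / δ) (δ / 16) L Y p))).card : ℝ) ≤
          pr p H := by exact_mod_cast e4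
      refine e5.trans (e3.le.trans (le_of_eq ?_))
      ring) (X : ℝ) (X + Y) (by
      intro p hp
      rw [Finset.mem_filter, Finset.mem_Ioc] at hp
      constructor
      · exact_mod_cast hp.1.1.le
      · exact_mod_cast hp.1.2) (by
      have h := mul_nonneg (show 0 ≤ δ / 16 by positivity) hY0
      linarith)
  refine h1.trans ?_
  have e1 : 1 / (16 / δ * L) = δ / 16 / L := by field_simp
  rw [e1]
  have e2 : ((1 - δ / 2) / L + δ / 16 / L) * ((X : ℝ) + Y + δ / 16 * Y - X) =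
      ((1 - δ / 2 + δ / 16) * (1 + δ / 16)) * (Y / L) := by ring
  rw [e2]
  apply mul_le_mul_of_nonneg_right _ (by positivity)
  nlinarith

/-- numerical requirements -/
def MReq (δ ρ X : ℝ) : Prop :=
  1 ≤ X ∧ 4 ≤ Real.log X ∧ 32 / δ * Real.log X ^ 2 ≤ X ^ (1 - ρ / 2) ∧ 32 / δ ≤ X ^ (ρ / 2)

lemma many_req (δ ρ : ℝ) (hρ : 0 < ρ) (hρ1 : ρ < 1) :
    ∀ᶠ X : ℕ in atTop, MReq δ ρ X := by
  have hn : Tendsto (fun X : ℕ => (X : ℝ)) atTop atTop := tendsto_natCast_atTop_atTop
  have h1 : ∀ᶠ x : ℝ in atTop, 1 ≤ x := eventually_ge_atTop 1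
  have h2 : ∀ᶠ x : ℝ in atTop, 4 ≤ Real.log x := Real.tendsto_log_atTop.eventually_ge_atTop 4
  have h3 : ∀ᶠ x : ℝ in atTop, 32 / δ * Real.log x ^ 2 ≤ x ^ (1 - ρ / 2) := by
    have e1 : (fun x : ℝ => 32 / δ * Real.log x ^ (2 : ℝ)) =o[atTop] fun x => x ^ (1 - ρ / 2) :=
      (isLittleO_log_rpow_rpow_atTop 2 (by linarith)).const_mul_left _
    filter_upwards [e1.bound (c := 1) one_pos, eventually_ge_atTop 1] with x hx hx1
    rw [one_mul] at hx
    have e2 : Real.log x ^ (2 : ℝ) = Real.log x ^ 2 := by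
      rw [show (2 : ℝ) = ((2 : ℕ) : ℝ) by norm_num, Real.rpow_natCast]
    rw [e2] at hx
    have e3 : ‖x ^ (1 - ρ / 2)‖ = x ^ (1 - ρ / 2) := by
      rw [Real.norm_eq_abs, abs_of_nonneg]
      exact Real.rpow_nonneg (by linarith) _
    rw [e3] at hx
    exact (le_abs_self _).trans hx
  have h4 : ∀ᶠ x : ℝ in atTop, 32 / δ ≤ x ^ (ρ / 2) :=
    (tendsto_rpow_atTop (by linarith : 0 < ρ / 2)).eventually_ge_atTop _
  filter_upwards [hn.eventually h1, hn.eventually h2, hn.eventually h3, hn.eventually h4] with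
    X e1 e2 e3 e4
  exact ⟨e1, e2, e3, e4⟩

lemma many_of (δ ρ lam : ℝ) (hδ : 0 < δ) (hδ1 : δ < 1) (hρ : 0 < ρ) (hρ1 : ρ < 1)
    (hlam : 1 ≤ lam) (X Y p : ℕ) (hreq : MReq δ ρ X) (hY : (X : ℝ) ^ (1 - ρ / 2) ≤ Y) (hYX : Y ≤ X)
    (hRO : RO lam X Y p) (hD : ¬ Defic δ (16 / δ) (δ / 16) (Real.log X) Y p)
    (x : ℝ) (hx1 : (X : ℝ) < x) (hx2 : x ≤ 2 * X) (hxp : x < p)
    (hp : (p : ℝ) ≤ x + Real.log X) : Many δ ρ (16 / δ + 1) (4 * lam) x := by
  obtain ⟨r1, r2, r3, r4⟩ := hreq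
  obtain ⟨L, hL⟩ : ∃ L, L = Real.log X := ⟨_, rfl⟩
  rw [← hL] at r2 r3 hD hp
  have hL0 : 0 < L := by linarith
  have hX0 : (0 : ℝ) < X := by linarith
  have hx0 : 0 < x := by linarith
  have hl1 : L ≤ Real.log x := by rw [hL]; exact Real.log_le_log hX0 hx1.le
  have hl2 : Real.log x ≤ 2 * L := by
    have h1 := Real.log_le_log hx0 hx2
    rw [Real.log_mul (by norm_num) hX0.ne', ← hL] at h1
    have e2 := Real.log_two_lt_d9
    linarith
  have hlx0 : 0 < Real.log x := by linarith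
  intro H hH1 hH2
  have hKL : (16 / δ + 1) * L ≤ H := le_trans (mul_le_mul_of_nonneg_left hl1 (by positivity)) hH1
  have h16 : 16 ≤ 16 / δ := by
    rw [le_div_iff₀ hδ]
    linarith
  have hHL : L ≤ H := by nlinarith
  have hH0 : 0 < H := by linarith
  have hHY : H ≤ δ / 16 * Y := by
    refine hH2.trans ?_
    have e1 : x ^ (1 - ρ) ≤ (2 * X) ^ (1 - ρ) := Real.rpow_le_rpow hx0.le hx2 (by linarith)
    have e2 : ((2 : ℝ) * X) ^ (1 - ρ) ≤ 2 * (X : ℝ) ^ (1 - ρ) := by
      rw [Real.mul_rpow (by norm_num) hX0.le]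
      apply mul_le_mul_of_nonneg_right _ (Real.rpow_nonneg hX0.le _)
      calc (2 : ℝ) ^ (1 - ρ) ≤ (2 : ℝ) ^ (1 : ℝ) :=
            Real.rpow_le_rpow_of_exponent_le (by norm_num) (by linarith)
        _ = 2 := Real.rpow_one 2
    have e3 : (X : ℝ) ^ (1 - ρ / 2) = (X : ℝ) ^ (1 - ρ) * (X : ℝ) ^ (ρ / 2) := by
      rw [← Real.rpow_add hX0]
      congr 1
      ring
    have e4 : (X : ℝ) ^ (1 - ρ) * (32 / δ) ≤ Y := by
      refine le_trans (mul_le_mul_of_nonneg_left r4 (Real.rpow_nonneg hX0.le _)) ?_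
      rw [← e3]
      exact hY
    have e5 : 2 * (X : ℝ) ^ (1 - ρ) = δ / 16 * ((X : ℝ) ^ (1 - ρ) * (32 / δ)) := by
      field_simp
      norm_num
    calc x ^ (1 - ρ) ≤ 2 * (X : ℝ) ^ (1 - ρ) := e1.trans e2
      _ = δ / 16 * ((X : ℝ) ^ (1 - ρ) * (32 / δ)) := e5
      _ ≤ δ / 16 * Y := mul_le_mul_of_nonneg_left e4 (by positivity)
  have hHY' : H ≤ Y := by
    refine hHY.trans ?_
    have : (0 : ℝ) ≤ Y := Nat.cast_nonneg _
    nlinarith
  constructor
  · -- lower bound
    obtain ⟨H', hH'⟩ : ∃ H', H' = H - (p - x) := ⟨_, rfl⟩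
    have b1 : H - L ≤ H' := by linarith
    have b2 : H' ≤ H := by linarith
    have b3 : (1 - δ / 2) * H' / L ≤ pr p H' := by
      by_contra hcon
      push Not at hcon
      exact hD ⟨H', by linarith, by linarith, hcon⟩
    have b4 : pr p H' ≤ pr x H := many_pr_mono hxp.le (by linarith)
    have b5 : (pr p H' : ℝ) ≤ pr x H := by exact_mod_cast b4
    refine le_trans ?_ (b3.trans b5)
    have b6 : (1 - δ) * H / Real.log x ≤ (1 - δ) * H / L := by
      apply div_le_div_of_nonneg_left _ hL0 hl1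
      exact mul_nonneg (by linarith) hH0.le
    refine b6.trans ?_
    apply div_le_div_of_nonneg_right _ hL0.le
    have b7 : 16 / δ * L ≤ H := by linarith
    have b8 : 16 * L ≤ δ * H := by
      have := mul_le_mul_of_nonneg_left b7 hδ.le
      have e : δ * (16 / δ * L) = 16 * L := by field_simp
      linarith
    nlinarith
  · have s1 := hRO x H hxp (by linarith) hHY'
    rw [← hL] at s1
    refine s1.trans ?_
    rw [le_div_iff₀ hlx0]
    have e1 : (1 + H / L) * Real.log x ≤ 4 * H := by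
      have e2 : Real.log x ≤ 2 * H := by linarith
      have e3 : H / L * Real.log x ≤ 2 * H := by
        rw [div_mul_eq_mul_div, div_le_iff₀ hL0]
        nlinarith
      linarith
    calc lam * (1 + H / L) * Real.log x = lam * ((1 + H / L) * Real.log x) := by ring
      _ ≤ lam * (4 * H) := mul_le_mul_of_nonneg_left e1 (by linarith)
      _ = 4 * lam * H := by ring

open Classical in
lemma many_count (δ ρ C lam : ℝ) (hδ : 0 < δ) (hδ1 : δ < 1) (hρ : 0 < ρ) (hρ1 : ρ < 1)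
    (hlam : 1 ≤ lam) (hC : C / √lam ≤ δ / 16) (X Y : ℕ) (hreq : MReq δ ρ X)
    (hY : (X : ℝ) ^ (1 - ρ / 2) ≤ Y) (hYX : Y ≤ X)
    (hbad : ({p : ℕ | p.Prime ∧ X < p ∧ p ≤ X + Y ∧ ¬ RO lam X Y p}.ncard : ℝ) ≤
      C / √lam * (Y / Real.log X))
    (hall : (1 - δ / 8) * (Y / Real.log X) ≤ pr X Y) :
    δ / (32 * lam) * Y ≤
      (((Ioc X (X + Y)).filter (fun m => m ∈ unitSet (Many δ ρ (16 / δ + 1) (4 * lam)))).card : ℝ) := by
  obtain ⟨r1, r2, r3, r4⟩ := id hreq
  obtain ⟨L, hL⟩ : ∃ L, L = Real.log X := ⟨_, rfl⟩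
  have hX0 : (0 : ℝ) < X := by linarith
  rw [← hL] at r2 r3 hbad hall
  have hL0 : 0 < L := by linarith
  have hYX' : (Y : ℝ) ≤ X := by exact_mod_cast hYX
  have hYr : 32 / δ * L ^ 2 ≤ Y := r3.trans hY
  have hYL : 0 ≤ (Y : ℝ) / L := by positivity
  have h32 : 32 ≤ 32 / δ := by
    rw [le_div_iff₀ hδ]
    linarith
  obtain ⟨t, ht⟩ : ∃ t : ℕ, t = ⌊L⌋₊ := ⟨_, rfl⟩
  have ht1 : (t : ℝ) ≤ L := by rw [ht]; exact Nat.floor_le hL0.le
  have ht2 : L < t + 1 := by rw [ht]; exact Nat.lt_floor_add_one _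
  have ht3 : 3 ≤ t := by
    have : (3 : ℝ) < t + 1 := by linarith
    have h' : 3 < t + 1 := by exact_mod_cast this
    omega
  have htY : (t : ℝ) ≤ Y := by nlinarith
  -- the good primes
  let G : Finset ℕ := (Finset.Ioc (X + t + 1) (X + Y)).filter
    (fun p => p.Prime ∧ RO lam X Y p ∧ ¬ Defic δ (16 / δ) (δ / 16) L Y p)
  have hG : δ / 8 * (Y / L) ≤ (G.card : ℝ) := by
    have h1 : {p : ℕ | p.Prime ∧ (X : ℝ) < p ∧ (p : ℝ) ≤ X + Y} ⊆
        (G : Set ℕ) ∪ ({p : ℕ | p.Prime ∧ X < p ∧ p ≤ X + Y ∧ ¬ RO lam X Y p} ∪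
          (((Ioc X (X + Y)).filter (fun p => p.Prime ∧ Defic δ (16 / δ) (δ / 16) L Y p) :
            Finset ℕ) ∪ (Finset.Ioc X (X + t + 1) : Finset ℕ))) := by
      rintro p ⟨p1, p2, p3⟩
      have p2' : X < p := by exact_mod_cast p2
      have p3' : p ≤ X + Y := by exact_mod_cast p3
      by_cases hp : RO lam X Y p
      · by_cases hp' : p ≤ X + t + 1
        · right; right; right
          rw [mem_coe, mem_Ioc]
          exact ⟨p2', hp'⟩
        · by_cases hp'' : Defic δ (16 / δ) (δ / 16) L Y p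
          · right; right; left
            rw [mem_coe, mem_filter, mem_Ioc]
            exact ⟨⟨p2', p3'⟩, p1, hp''⟩
          · left
            rw [mem_coe]
            simp only [G, mem_filter, mem_Ioc]
            exact ⟨⟨by omega, p3'⟩, p1, hp, hp''⟩
      · right; left
        exact ⟨p1, p2', p3', hp⟩
    have hfin : {p : ℕ | p.Prime ∧ X < p ∧ p ≤ X + Y ∧ ¬ RO lam X Y p}.Finite := by
      apply Set.Finite.subset (Finset.finite_toSet (Ioc X (X + Y)))
      rintro p ⟨-, p2, p3, -⟩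
      rw [mem_coe, mem_Ioc]
      exact ⟨p2, p3⟩
    have h2 := Set.ncard_le_ncard h1
      ((Finset.finite_toSet G).union (hfin.union
        ((Finset.finite_toSet _).union (Finset.finite_toSet _))))
    have h3 := h2.trans ((Set.ncard_union_le _ _).trans
      (Nat.add_le_add_left ((Set.ncard_union_le _ _).trans
        (Nat.add_le_add_left (Set.ncard_union_le _ _) _)) _))
    rw [Set.ncard_coe_finset, Set.ncard_coe_finset, Set.ncard_coe_finset, Nat.card_Ioc] at h3
    have h4 : X + t + 1 - X = t + 1 := by omega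
    rw [h4] at h3
    have h5 : (pr X Y : ℝ) ≤ G.card +
        ({p : ℕ | p.Prime ∧ X < p ∧ p ≤ X + Y ∧ ¬ RO lam X Y p}.ncard +
          (((Ioc X (X + Y)).filter (fun p => p.Prime ∧ Defic δ (16 / δ) (δ / 16) L Y p)).card +
            (t + 1))) := by
      unfold pr
      exact_mod_cast h3
    have h6 : C / √lam * (Y / L) ≤ δ / 16 * (Y / L) := mul_le_mul_of_nonneg_right hC hYL
    have h7 := many_defic δ hδ hδ1 X Y L hL0
    have h8 : (t : ℝ) + 1 ≤ δ / 16 * (Y / L) := by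
      have e1 : δ / 16 * (32 / δ * L ^ 2 / L) ≤ δ / 16 * (Y / L) := by
        apply mul_le_mul_of_nonneg_left _ (by positivity)
        exact div_le_div_of_nonneg_right hYr hL0.le
      have e2 : δ / 16 * (32 / δ * L ^ 2 / L) = 2 * L := by
        field_simp
        norm_num
      linarith
    linarith
  -- double counting
  let T : Finset ℕ := (Finset.Ioc X (X + Y)).filter
      (fun m => m ∈ unitSet (Many δ ρ (16 / δ + 1) (4 * lam)))
  obtain ⟨K, hK⟩ : ∃ K : ℕ, K = ⌊2 * lam⌋₊ := ⟨_, rfl⟩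
  have hdc := Finset.card_mul_le_card_mul (s := G) (t := T) (m := t - 1) (n := K)
    (fun p m : ℕ => p ≤ m + t ∧ m + 2 ≤ p)
    (by
      intro p hp
      simp only [G, Finset.mem_filter, Finset.mem_Ioc] at hp
      obtain ⟨⟨p1, p2⟩, p3, p4, p5⟩ := hp
      have hsub : Finset.Icc (p - t) (p - 2) ⊆
          Finset.bipartiteAbove (fun p m : ℕ => p ≤ m + t ∧ m + 2 ≤ p) T p := by
        intro m hm
        rw [Finset.mem_Icc] at hm
        rw [Finset.mem_bipartiteAbove]
        refine ⟨?_, by omega, by omega⟩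
        simp only [T, Finset.mem_filter, Finset.mem_Ioc]
        refine ⟨⟨by omega, by omega⟩, ?_⟩
        intro x hx1 hx2
        have m1 : X + 1 ≤ m := by omega
        have m1' : (X : ℝ) + 1 ≤ m := by exact_mod_cast m1
        have m2 : m + 2 ≤ p := by omega
        have m2' : (m : ℝ) + 2 ≤ p := by exact_mod_cast m2
        have m3 : p ≤ m + t := by omega
        have m3' : (p : ℝ) ≤ m + t := by exact_mod_cast m3
        have m4' : (p : ℝ) ≤ X + Y := by exact_mod_cast p2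
        rw [hL] at p5
        exact many_of δ ρ lam hδ hδ1 hρ hρ1 hlam X Y p hreq hY hYX p4 p5 x (by linarith)
          (by linarith) (by linarith) (by rw [← hL]; linarith)
      have hc := Finset.card_le_card hsub
      rw [Nat.card_Icc] at hc
      omega)
    (by
      intro m hm
      simp only [T, Finset.mem_filter, Finset.mem_Ioc] at hm
      rcases (Finset.bipartiteBelow (fun p m : ℕ => p ≤ m + t ∧ m + 2 ≤ p) G m).eq_empty_or_nonempty
        with h0 | h0
      · rw [h0, Finset.card_empty]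
        exact Nat.zero_le _
      · obtain ⟨p, hp⟩ := h0
        rw [Finset.mem_bipartiteBelow] at hp
        obtain ⟨hpG, hp1, hp2⟩ := hp
        simp only [G, Finset.mem_filter, Finset.mem_Ioc] at hpG
        obtain ⟨⟨p1, p2⟩, p3, p4, p5⟩ := hpG
        have hp2' : m < p := by omega
        have e1 := p4 (m : ℝ) (t : ℝ) (by exact_mod_cast hp2') (by exact_mod_cast hp1) htY
        have e2 : (Finset.bipartiteBelow (fun p m : ℕ => p ≤ m + t ∧ m + 2 ≤ p) G m).card ≤
            pr m t := by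
          apply many_card_le_pr
          intro q hq
          rw [Finset.mem_bipartiteBelow] at hq
          obtain ⟨hqG, hq1, hq2⟩ := hq
          simp only [G, Finset.mem_filter, Finset.mem_Ioc] at hqG
          have hq2' : m < q := by omega
          exact ⟨hqG.2.1, by exact_mod_cast hq2', by exact_mod_cast hq1⟩
        rw [hK]
        apply Nat.le_floor
        have e3 : (((Finset.bipartiteBelow (fun p m : ℕ => p ≤ m + t ∧ m + 2 ≤ p) G m).card : ℕ) :
            ℝ) ≤ pr m t := by exact_mod_cast e2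
        refine e3.trans (e1.trans ?_)
        rw [← hL]
        have e4 : (t : ℝ) / L ≤ 1 := by
          rw [div_le_one hL0]
          exact ht1
        nlinarith)
  have hK1 : (K : ℝ) ≤ 2 * lam := by rw [hK]; exact Nat.floor_le (by linarith)
  have h1 : (G.card : ℝ) * ((t - 1 : ℕ) : ℝ) ≤ T.card * K := by exact_mod_cast hdc
  have h2 : ((t - 1 : ℕ) : ℝ) = t - 1 := by
    rw [Nat.cast_sub (by omega)]
    norm_num
  rw [h2] at h1
  have h3 : L / 2 ≤ (t : ℝ) - 1 := by linarith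
  have h4 : δ / 8 * (Y / L) * (L / 2) ≤ T.card * (2 * lam) := by
    calc δ / 8 * (Y / L) * (L / 2) ≤ G.card * ((t : ℝ) - 1) :=
          mul_le_mul hG h3 (by positivity) (by positivity)
      _ ≤ T.card * K := h1
      _ ≤ T.card * (2 * lam) := mul_le_mul_of_nonneg_left hK1 (by positivity)
  have h5 : δ / 8 * (Y / L) * (L / 2) = δ / 16 * Y := by
    field_simp
    ring
  rw [h5] at h4
  have hlam0 : 0 < lam := by linarith
  have h6 : δ / (32 * lam) * Y = (δ / 16 * Y) / (2 * lam) := by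
    field_simp
    ring
  rw [h6, div_le_iff₀ (by positivity)]
  exact h4

theorem many : S_BAL → S_MANY := by
  intro hB δ ρ hδ hδ1 hρ hρ1
  obtain ⟨C, hC, hev⟩ := hB (1 - ρ / 2) (by linarith)
  obtain ⟨lam, hlam⟩ : ∃ lam : ℝ, lam = max 1 ((16 * C / δ) ^ 2) := ⟨_, rfl⟩
  have hlam1 : 1 ≤ lam := by rw [hlam]; exact le_max_left _ _
  have hlam2 : (16 * C / δ) ^ 2 ≤ lam := by rw [hlam]; exact le_max_right _ _
  have hlam0 : 0 < lam := by linarith
  have hCl : C / √lam ≤ δ / 16 := by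
    have h1 : 16 * C / δ ≤ √lam := by
      rw [← Real.sqrt_sq (show 0 ≤ 16 * C / δ by positivity)]
      exact Real.sqrt_le_sqrt hlam2
    rw [div_le_iff₀ (Real.sqrt_pos.2 hlam0)]
    have h2 : δ / 16 * (16 * C / δ) = C := by field_simp
    have h3 := mul_le_mul_of_nonneg_left h1 (show 0 ≤ δ / 16 by positivity)
    linarith
  refine ⟨16 / δ + 1, 4 * lam, δ / (32 * lam), by positivity, by positivity, by positivity, ?_⟩
  filter_upwards [hev, many_req δ ρ hρ hρ1] with X hX hreq Y hY hYX hall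
  exact many_count δ ρ C lam hδ hδ1 hρ hρ1 hlam1 hCl X Y hreq hY hYX (hX Y hY hYX lam hlam1) hall

end Pool.Agent.H27.PB
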