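import Pool.Agent.H27.PB.Blk

set_option autoImplicit false

/-! Project PB, part MET: the metric theorem for sets which have positive density in almost all blocks. -/

open Filter Topology MeasureTheory Finset

namespace Pool.Agent.H27.PB

namespace MET

open Classical in
/-- number of elements of `T` in `(a, b]` -/
noncomputable def cnt (T : Set ℕ) (a b : ℕ) : ℕ := ((Ioc a b).filter (fun m => m ∈ T)).card

lemma cnt_add (T : Set ℕ) {a b c : ℕ} (h1 : a ≤ b) (h2 : b ≤ c) : cnt T a c = cnt T a b + cnt T b c := by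
  classical
  unfold cnt
  rw [← Finset.card_union_of_disjoint]
  · congr 1
    rw [← Finset.filter_union]
    congr 1
    ext m
    simp only [Finset.mem_union, Finset.mem_Ioc]
    omega
  · rw [Finset.disjoint_left]
    intro m hm hm'
    simp only [Finset.mem_filter, Finset.mem_Ioc] at hm hm'
    omega

lemma cnt_mono (T : Set ℕ) {a a' b b' : ℕ} (h1 : a ≤ a') (h2 : b' ≤ b) : cnt T a' b' ≤ cnt T a b := by
  classical
  unfold cnt
  apply Finset.card_le_card
  apply Finset.filter_subset_filter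
  exact Finset.Ioc_subset_Ioc h1 h2

lemma cnt_blocks (T : Set ℕ) (c : ℝ) (a L : ℕ) (n : ℕ)
    (h : ∀ j < n, c * L ≤ cnt T (a + j * L) (a + (j + 1) * L)) : n * (c * L) ≤ cnt T a (a + n * L) := by
  induction n with
  | zero => simp
  | succ n ih =>
    have h1 := ih fun j hj => h j (by omega)
    have h2 := h n (by omega)
    rw [cnt_add T (b := a + n * L) (by omega) (by rw [add_mul]; omega)]
    push_cast
    linarith

/-- an interval inside one level -/
lemma one_level (T : Set ℕ) (c θ : ℝ) (hc1 : c ≤ 1) (hc0 : 0 < c) (hθ1 : θ < 1) (i Z V : ℕ) (hZ : 2 ^ i ≤ Z)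
    (hV : Z + V ≤ 2 ^ (i + 1))
    (h : ∀ j < Nb θ i, c * Ln θ i ≤ cnt T (bl θ i j) (bl θ i j + Ln θ i)) :
    c * (V - 2 * Ln θ i) ≤ cnt T Z (Z + V) := by
  obtain ⟨L, hL⟩ : ∃ L, L = Ln θ i := ⟨_, rfl⟩
  have hL0 : 0 < L := by rw [hL]; exact Ln_pos θ i
  have hNL : Nb θ i * L = 2 ^ i := by rw [hL]; exact Nb_mul θ hθ1 i
  obtain ⟨D, hD⟩ : ∃ D, D = Z - 2 ^ i := ⟨_, rfl⟩
  have hZD : Z = 2 ^ i + D := by omega
  obtain ⟨j₀, hj₀⟩ : ∃ j₀, j₀ = D / L + 1 := ⟨_, rfl⟩
  obtain ⟨j₁, hj₁⟩ : ∃ j₁, j₁ = (D + V) / L := ⟨_, rfl⟩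
  have e0 : D < j₀ * L := by
    rw [hj₀]
    have := Nat.lt_div_mul_add hL0 (a := D)
    rw [add_mul, one_mul]
    exact this
  have e0' : j₀ * L ≤ D + L := by
    rw [hj₀, add_mul, one_mul]
    have := Nat.div_mul_le_self D L
    omega
  have e1 : j₁ * L ≤ D + V := by rw [hj₁]; exact Nat.div_mul_le_self _ _
  have e1' : D + V < j₁ * L + L := by
    rw [hj₁]
    exact Nat.lt_div_mul_add hL0 (a := D + V)
  have e2 : j₁ ≤ Nb θ i := by
    have : D + V ≤ 2 ^ i := by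
      rw [pow_succ] at hV
      omega
    have h3 : j₁ * L ≤ Nb θ i * L := by rw [hNL]; exact e1.trans this
    exact Nat.le_of_mul_le_mul_right h3 hL0
  rw [← hL] at h ⊢
  by_cases hj : j₀ ≤ j₁
  · have h3 := cnt_blocks T c (2 ^ i + j₀ * L) L (j₁ - j₀) (by
      intro j hj'
      have h4 := h (j₀ + j) (by omega)
      unfold bl at h4
      rw [← hL] at h4
      have e3 : 2 ^ i + j₀ * L + j * L = 2 ^ i + (j₀ + j) * L := by ring
      have e4 : 2 ^ i + j₀ * L + (j + 1) * L = 2 ^ i + (j₀ + j) * L + L := by ring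
      rw [e3, e4]
      exact h4)
    have e5 : 2 ^ i + j₀ * L + (j₁ - j₀) * L = 2 ^ i + j₁ * L := by
      rw [add_assoc, ← add_mul]
      congr 2
      omega
    rw [e5] at h3
    have h4 : (cnt T (2 ^ i + j₀ * L) (2 ^ i + j₁ * L) : ℝ) ≤ cnt T Z (Z + V) := by
      exact_mod_cast cnt_mono T (by omega) (by omega)
    refine le_trans ?_ (h3.trans h4)
    rw [Nat.cast_sub hj]
    have e6 : ((D : ℝ) + V) < j₁ * L + L := by exact_mod_cast e1'
    have e7 : (j₀ : ℝ) * L ≤ D + L := by exact_mod_cast e0'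
    have : (V : ℝ) - 2 * L ≤ ((j₁ : ℝ) - j₀) * L := by nlinarith
    calc c * ((V : ℝ) - 2 * L) ≤ c * (((j₁ : ℝ) - j₀) * L) := mul_le_mul_of_nonneg_left this hc0.le
      _ = ((j₁ : ℝ) - j₀) * (c * L) := by ring
  · have h3 : (V : ℝ) - 2 * L ≤ 0 := by
      have h4 : D + V < D + L + L := by
        have : j₁ * L ≤ (j₀ - 1) * L := Nat.mul_le_mul_right _ (by omega)
        have h5 : (j₀ - 1) * L + L = j₀ * L := by
          have h6 : j₀ = (j₀ - 1) + 1 := by omega
          conv_rhs => rw [h6, add_mul, one_mul]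
        omega
      have : (V : ℝ) < L + L := by exact_mod_cast (by omega : V < L + L)
      linarith
    have h4 : c * ((V : ℝ) - 2 * L) ≤ 0 := mul_nonpos_of_nonneg_of_nonpos hc0.le h3
    exact h4.trans (Nat.cast_nonneg _)

end MET

open Classical in
theorem met (hbc : S_BC) : S_MET := by
  intro S c θ hc hθ0 hθ1 hbad
  -- `c ≤ 1`
  have hc1 : c ≤ 1 := by
    obtain ⟨i, hi, hi2⟩ := (hbad.and (eventually_ge_atTop 2)).exists
    by_contra hcon
    push Not at hcon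
    have h1 : (range (Nb θ i)).filter (fun j =>
        (((Ioc (bl θ i j) (bl θ i j + Ln θ i)).filter (fun m => m ∈ S)).card : ℝ) < c * Ln θ i) = range (Nb θ i) := by
      apply Finset.filter_true_of_mem
      intro j _
      have h2 : ((Ioc (bl θ i j) (bl θ i j + Ln θ i)).filter (fun m => m ∈ S)).card ≤ Ln θ i := by
        refine (Finset.card_filter_le _ _).trans (le_of_eq ?_)
        rw [Nat.card_Ioc]
        omega
      have h3 : (((Ioc (bl θ i j) (bl θ i j + Ln θ i)).filter (fun m => m ∈ S)).card : ℝ) ≤ Ln θ i := by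
        exact_mod_cast h2
      have h4 : (0 : ℝ) < Ln θ i := by exact_mod_cast Ln_pos θ i
      nlinarith
    rw [h1, Finset.card_range] at hi
    have h5 : (0 : ℝ) < Nb θ i := by unfold Nb; positivity
    have h6 : (2 : ℝ) ≤ i := by exact_mod_cast hi2
    nlinarith
  obtain ⟨B, hB⟩ : ∃ B : Set ℕ, B = {m : ℕ | ∃ i j : ℕ, j < Nb θ i ∧
    (((Ioc (bl θ i j) (bl θ i j + Ln θ i)).filter (fun m => m ∈ S)).card : ℝ) < c * Ln θ i ∧
    bl θ i j < m ∧ m ≤ bl θ i j + Ln θ i} := ⟨_, rfl⟩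
  -- sparse
  have hsparse : ∀ᶠ i : ℕ in atTop,
      (((Ioc (2 ^ i) (2 ^ (i + 1))).filter (fun m : ℕ => m ∈ B)).card : ℝ) * i ≤ 2 ^ i := by
    filter_upwards [hbad] with i hi
    have h1 : (Ioc (2 ^ i) (2 ^ (i + 1))).filter (fun m : ℕ => m ∈ B) ⊆
        ((range (Nb θ i)).filter (fun j =>
          (((Ioc (bl θ i j) (bl θ i j + Ln θ i)).filter (fun m => m ∈ S)).card : ℝ) < c * Ln θ i)).biUnion
          (fun j => Ioc (bl θ i j) (bl θ i j + Ln θ i)) := by
      intro m hm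
      rw [Finset.mem_filter, Finset.mem_Ioc, hB] at hm
      obtain ⟨⟨m1, m2⟩, i', j, hj, hj2, m3, m4⟩ := hm
      have e1 := bl_ge θ i' j
      have e2 := bl_add θ hθ1 i' j hj
      have e3 : i' = i := by
        have h3 : 2 ^ i' < 2 ^ (i + 1) := by omega
        have h4 : 2 ^ i < 2 ^ (i' + 1) := by omega
        have h5 := (Nat.pow_lt_pow_iff_right (by norm_num : 1 < 2)).1 h3
        have h6 := (Nat.pow_lt_pow_iff_right (by norm_num : 1 < 2)).1 h4
        omega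
      subst e3
      rw [Finset.mem_biUnion]
      exact ⟨j, Finset.mem_filter.2 ⟨Finset.mem_range.2 hj, hj2⟩, Finset.mem_Ioc.2 ⟨m3, m4⟩⟩
    have h2 := (Finset.card_le_card h1).trans Finset.card_biUnion_le
    simp only [Nat.card_Ioc, add_tsub_cancel_left, Finset.sum_const, smul_eq_mul] at h2
    have h3 : (((Ioc (2 ^ i) (2 ^ (i + 1))).filter (fun m : ℕ => m ∈ B)).card : ℝ) ≤
        (((range (Nb θ i)).filter (fun j =>
          (((Ioc (bl θ i j) (bl θ i j + Ln θ i)).filter (fun m => m ∈ S)).card : ℝ) < c * Ln θ i)).card : ℝ) *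
          Ln θ i := by exact_mod_cast h2
    have h4 : (0 : ℝ) ≤ Ln θ i := Nat.cast_nonneg _
    have h5 : (Nb θ i : ℝ) * Ln θ i = 2 ^ i := by exact_mod_cast Nb_mul θ hθ1 i
    calc (((Ioc (2 ^ i) (2 ^ (i + 1))).filter (fun m : ℕ => m ∈ B)).card : ℝ) * i
        ≤ (((range (Nb θ i)).filter (fun j =>
          (((Ioc (bl θ i j) (bl θ i j + Ln θ i)).filter (fun m => m ∈ S)).card : ℝ) < c * Ln θ i)).card : ℝ) *
          Ln θ i * i := mul_le_mul_of_nonneg_right h3 (Nat.cast_nonneg _)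
      _ = (((range (Nb θ i)).filter (fun j =>
          (((Ioc (bl θ i j) (bl θ i j + Ln θ i)).filter (fun m => m ∈ S)).card : ℝ) < c * Ln θ i)).card : ℝ) *
          i * Ln θ i := by ring
      _ ≤ Nb θ i * Ln θ i := mul_le_mul_of_nonneg_right hi h4
      _ = 2 ^ i := h5
  -- dense
  obtain ⟨T, hT⟩ : ∃ T : Set ℕ, T = S ∪ B := ⟨_, rfl⟩
  have hblocks : ∀ i j : ℕ, j < Nb θ i → c * Ln θ i ≤ MET.cnt T (bl θ i j) (bl θ i j + Ln θ i) := by
    intro i j hj
    by_cases h : (((Ioc (bl θ i j) (bl θ i j + Ln θ i)).filter (fun m => m ∈ S)).card : ℝ) < c * Ln θ i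
    · have h1 : MET.cnt T (bl θ i j) (bl θ i j + Ln θ i) = Ln θ i := by
        unfold MET.cnt
        rw [Finset.filter_true_of_mem]
        · rw [Nat.card_Ioc]; omega
        · intro m hm
          rw [Finset.mem_Ioc] at hm
          rw [hT, hB]
          exact Or.inr ⟨i, j, hj, h, hm.1, hm.2⟩
      rw [h1]
      have : (0 : ℝ) ≤ Ln θ i := Nat.cast_nonneg _
      nlinarith
    · push Not at h
      refine h.trans ?_
      unfold MET.cnt
      apply Nat.cast_le.2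
      apply Finset.card_le_card
      intro m hm
      rw [Finset.mem_filter] at hm ⊢
      refine ⟨hm.1, ?_⟩
      rw [hT]
      exact Or.inl hm.2
  have hdense : ∃ X₀ : ℕ, Pool.Agent.H27.LD.Dense T (c / 8) ((1 + θ) / 2) X₀ := by
    -- numerical requirement
    have hq : 0 < (1 - θ) / 2 := by linarith
    have ev : ∀ᶠ X : ℕ in atTop, (32 : ℝ) ≤ (X : ℝ) ^ ((1 - θ) / 2) ∧ 1 ≤ X :=
      (((tendsto_rpow_atTop hq).comp tendsto_natCast_atTop_atTop).eventually_ge_atTop 32).and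
        (eventually_ge_atTop 1)
    obtain ⟨X₀, hX₀⟩ := eventually_atTop.1 ev
    refine ⟨X₀, fun X Y hX hY hYX => ?_⟩
    obtain ⟨h1, hX1⟩ := hX₀ X hX
    have hX1r : (1 : ℝ) ≤ X := by exact_mod_cast hX1
    have hX0r : (0 : ℝ) < X := by linarith
    obtain ⟨i, hi⟩ : ∃ i, i = Nat.log 2 X := ⟨_, rfl⟩
    have hi1 : 2 ^ i ≤ X := by rw [hi]; exact Nat.pow_log_le_self 2 (by omega)
    have hi2 : X < 2 ^ (i + 1) := by rw [hi]; exact Nat.lt_pow_succ_log_self (by norm_num) X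
    -- the block lengths at the levels `i`, `i + 1`
    have hLX : ∀ k : ℕ, 2 ^ k ≤ 2 * X → (32 : ℝ) / 4 * Ln θ k ≤ Y := by
      intro k hk
      have hk' : (2 : ℝ) ^ k ≤ 2 * X := by exact_mod_cast hk
      have h2 : (2 : ℝ) ^ (θ * k) ≤ 2 * (X : ℝ) ^ θ := by
        calc (2 : ℝ) ^ (θ * k) = ((2 : ℝ) ^ k) ^ θ := by
              rw [← Real.rpow_natCast, ← Real.rpow_mul (by norm_num)]
              congr 1
              ring
          _ ≤ (2 * X) ^ θ := Real.rpow_le_rpow (by positivity) hk' hθ0.le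
          _ = 2 ^ θ * (X : ℝ) ^ θ := Real.mul_rpow (by norm_num) hX0r.le
          _ ≤ 2 * (X : ℝ) ^ θ := by
              apply mul_le_mul_of_nonneg_right _ (by positivity)
              calc (2 : ℝ) ^ θ ≤ 2 ^ (1 : ℝ) := Real.rpow_le_rpow_of_exponent_le (by norm_num) hθ1.le
                _ = 2 := Real.rpow_one _
      have h3 := Ln_le' θ hθ0.le k
      have h4 : (X : ℝ) ^ ((1 + θ) / 2) = (X : ℝ) ^ ((1 - θ) / 2) * (X : ℝ) ^ θ := by
        rw [← Real.rpow_add hX0r]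
        congr 1
        ring
      have h5 : 0 < (X : ℝ) ^ θ := Real.rpow_pos_of_pos hX0r _
      calc (32 : ℝ) / 4 * Ln θ k ≤ 32 / 4 * (2 * (2 * (X : ℝ) ^ θ)) := by
            apply mul_le_mul_of_nonneg_left _ (by norm_num)
            linarith
        _ = 32 * (X : ℝ) ^ θ := by ring
        _ ≤ (X : ℝ) ^ ((1 - θ) / 2) * (X : ℝ) ^ θ := mul_le_mul_of_nonneg_right h1 h5.le
        _ = (X : ℝ) ^ ((1 + θ) / 2) := h4.symm
        _ ≤ Y := hY
    have hY4 : 8 ≤ Y := by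
      have h2 := hLX 0 (by omega)
      have h3 : (1 : ℝ) ≤ Ln θ 0 := by exact_mod_cast Ln_pos θ 0
      have : (8 : ℝ) ≤ Y := by linarith
      exact_mod_cast this
    have hY4r : (8 : ℝ) ≤ Y := by exact_mod_cast hY4
    change c / 8 * Y ≤ (MET.cnt T X (X + Y) : ℝ)
    rcases le_or_gt (X + Y / 2) (2 ^ (i + 1)) with hcase | hcase
    · have h2 := MET.one_level T c θ hc1 hc hθ1 i X (Y / 2) hi1 hcase (hblocks i)
      have h3 : (MET.cnt T X (X + Y / 2) : ℝ) ≤ MET.cnt T X (X + Y) := by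
        exact_mod_cast MET.cnt_mono T le_rfl (by omega)
      refine le_trans ?_ (h2.trans h3)
      have h4 := hLX i (by omega)
      have h5 : (Y : ℝ) / 2 - 1 ≤ ((Y / 2 : ℕ) : ℝ) := by
        have : Y ≤ 2 * (Y / 2) + 1 := by omega
        have : (Y : ℝ) ≤ 2 * ((Y / 2 : ℕ) : ℝ) + 1 := by exact_mod_cast this
        linarith
      have h6 : (Y : ℝ) / 8 ≤ ((Y / 2 : ℕ) : ℝ) - 2 * Ln θ i := by linarith
      calc c / 8 * Y = c * (Y / 8) := by ring
        _ ≤ _ := mul_le_mul_of_nonneg_left h6 hc.le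
    · have h2 := MET.one_level T c θ hc1 hc hθ1 (i + 1) (X + Y / 2) (Y - Y / 2) hcase.le (by
        have : X + Y / 2 + (Y - Y / 2) = X + Y := by omega
        rw [this, pow_succ]
        omega) (hblocks (i + 1))
      have e : X + Y / 2 + (Y - Y / 2) = X + Y := by omega
      rw [e] at h2
      have h3 : (MET.cnt T (X + Y / 2) (X + Y) : ℝ) ≤ MET.cnt T X (X + Y) := by
        exact_mod_cast MET.cnt_mono T (by omega) le_rfl
      refine le_trans ?_ (h2.trans h3)
      have h4 := hLX (i + 1) (by rw [pow_succ]; omega)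
      have h5 : (Y : ℝ) / 2 ≤ ((Y - Y / 2 : ℕ) : ℝ) := by
        have : Y ≤ 2 * (Y - Y / 2) := by omega
        have : (Y : ℝ) ≤ 2 * ((Y - Y / 2 : ℕ) : ℝ) := by exact_mod_cast this
        linarith
      have h6 : (Y : ℝ) / 8 ≤ ((Y - Y / 2 : ℕ) : ℝ) - 2 * Ln θ (i + 1) := by linarith
      calc c / 8 * Y = c * (Y / 8) := by ring
        _ ≤ _ := mul_le_mul_of_nonneg_left h6 hc.le
  obtain ⟨X₀, hX₀⟩ := hdense
  refine ⟨c / 1536, by positivity, ?_⟩
  intro b w hb hw hm hdiv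
  have h1 := Pool.Agent.H27.LD.metric T (c / 8) ((1 + θ) / 2) (by positivity) X₀ (by linarith) (by linarith) hX₀
    b w hb hw hm hdiv
  have h2 := hbc B hsparse b w hb hw hm
  filter_upwards [h1, h2] with α g1 g2 hα
  obtain ⟨V, hV⟩ : ∃ V : ℝ, V = ∑' n : ℕ, w n * (if ∃ m ∈ B, (m : ℝ) ≤ α ^ b n ∧ α ^ b n ≤ m + 1 then 1 else 0) :=
    ⟨_, rfl⟩
  filter_upwards [g1 hα, hdiv.eventually_ge_atTop (1536 / c * V)] with N k1 k2
  have k3 : c / 8 / 96 * ∑ n ∈ range N, w n ≤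
      ∑ n ∈ (range N).filter (fun n : ℕ => ∃ m ∈ S, (m : ℝ) ≤ α ^ b n ∧ α ^ b n ≤ m + 1), w n + V := by
    refine k1.trans ?_
    have k4 : ∑ n ∈ range N, w n * (if ∃ m ∈ B, (m : ℝ) ≤ α ^ b n ∧ α ^ b n ≤ m + 1 then 1 else 0) ≤ V := by
      rw [hV]
      apply (g2 hα).sum_le_tsum
      intro n _
      have := hw n
      split_ifs <;> simp [this]
    refine le_trans ?_ (add_le_add_right k4 _)
    rw [Finset.sum_filter, Finset.sum_filter, ← Finset.sum_add_distrib]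
    refine Finset.sum_le_sum fun n _ => ?_
    have hwn := hw n
    by_cases hT' : ∃ m ∈ T, (m : ℝ) ≤ α ^ b n ∧ α ^ b n ≤ m + 1
    · rw [if_pos hT']
      obtain ⟨m, hm, hm2⟩ := hT'
      rw [hT] at hm
      rcases hm with hm | hm
      · rw [if_pos ⟨m, hm, hm2⟩]
        have : 0 ≤ w n * (if ∃ m ∈ B, (m : ℝ) ≤ α ^ b n ∧ α ^ b n ≤ m + 1 then (1 : ℝ) else 0) := by
          split_ifs <;> simp [hwn]
        linarith
      · rw [if_pos (⟨m, hm, hm2⟩ : ∃ m ∈ B, (m : ℝ) ≤ α ^ b n ∧ α ^ b n ≤ m + 1), mul_one]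
        have : 0 ≤ (if ∃ m ∈ S, (m : ℝ) ≤ α ^ b n ∧ α ^ b n ≤ m + 1 then w n else 0) := by
          split_ifs <;> simp [hwn]
        linarith
    · rw [if_neg hT']
      have h5 : 0 ≤ (if ∃ m ∈ S, (m : ℝ) ≤ α ^ b n ∧ α ^ b n ≤ m + 1 then w n else 0) := by
        split_ifs <;> simp [hwn]
      have h6 : 0 ≤ w n * (if ∃ m ∈ B, (m : ℝ) ≤ α ^ b n ∧ α ^ b n ≤ m + 1 then (1 : ℝ) else 0) := by
        split_ifs <;> simp [hwn]
      linarith
  have k5 : V ≤ c / 1536 * ∑ n ∈ range N, w n := by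
    calc V = c / 1536 * (1536 / c * V) := by field_simp
      _ ≤ _ := mul_le_mul_of_nonneg_left k2 (by positivity)
  have k6 : c / 8 / 96 * ∑ n ∈ range N, w n = c / 1536 * ∑ n ∈ range N, w n + c / 1536 * ∑ n ∈ range N, w n := by ring
  linarith

end Pool.Agent.H27.PB
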