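import Pool.Agent.H27.PB.Asm
import Pool.Agent.H27.PB.BLK
import Pool.Agent.H27.PB.MANY
import Pool.Agent.H27.PB.FEW
import Pool.Agent.H27.PB.BC
import Pool.Agent.H27.PB.MET
import Pool.Agent.H27.G.R_pool_sql_team_seeded_843ab51a.Results.MP_31d0eb_nt.BalancedPrimes
import Pool.Agent.H27.G.R_pool_sql_team_seeded_620a6dc7.Helper855N.MSProof

set_option autoImplicit false

/-! Project PB: all parts together. -/

open Filter Topology MeasureTheory Finset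

namespace Pool.Agent.H27.PB

theorem bal : S_BAL := by
  intro θ hθ
  obtain ⟨C, hC, h⟩ := Pool.Agent.Results.MP_31d0eb_nt.BalancedPrimes.result.1 θ hθ
  refine ⟨C, hC, ?_⟩
  filter_upwards [h] with X hX Y hY hYX lam hlam
  have h1 := hX Y hY hYX Pool.Agent.Results.MP_31d0eb_nt.BalancedPrimes.primes subset_rfl lam hlam
  refine le_trans ?_ h1
  apply Nat.cast_le.2
  apply Set.ncard_le_ncard
  · rintro p ⟨p1, p2, p3, p4⟩
    exact ⟨p1, p2, p3, fun hc => p4 (fun x H hx hp hH => (hc x H hx hp hH).2)⟩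
  · apply Set.Finite.subset (Finset.finite_toSet (Ioc X (X + Y)))
    rintro p ⟨-, p2, p3, -⟩
    rw [mem_coe, mem_Ioc]
    exact ⟨p2, p3⟩

theorem ms' : S_MS := Pool.Agent.Helper855N.ms

open Classical in
theorem final (δ ρ : ℝ) (hδ0 : 0 < δ) (hδ1 : δ < 1) (hρ0 : 0 < ρ) (hρ1 : ρ < 1) :
    ∃ K lam κ : ℝ, 0 < K ∧ 0 < lam ∧ 0 < κ ∧
      ∀ b w : ℕ → ℝ, Tendsto b atTop atTop → (∀ n, 0 ≤ w n) → Pool.Agent.H27.LD.BddMass b w →
      Tendsto (fun N : ℕ => ∑ n ∈ range N, w n) atTop atTop →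
      ∀ᵐ α : ℝ, 1 < α → ∀ᶠ N : ℕ in atTop,
        κ * ∑ n ∈ range N, w n ≤ ∑ n ∈ (range N).filter (fun n : ℕ => Many δ ρ K lam (α ^ b n)), w n ∧
        κ * ∑ n ∈ range N, w n ≤ ∑ n ∈ (range N).filter (fun n : ℕ => Few δ ρ K (α ^ b n)), w n :=
  main ms' bal BLK.main many few bc met δ ρ hδ0 hδ1 hρ0 hρ1

end Pool.Agent.H27.PB
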