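import Pool.Agent.H27.PB.Blk

set_option autoImplicit false

/-! Project PB: assembly. -/

open Filter Topology MeasureTheory Finset

namespace Pool.Agent.H27.PB

/-- the block length is large enough -/
lemma len_ok (ρ : ℝ) (hρ0 : 0 < ρ) (hρ1 : ρ < 1) : ∀ᶠ i : ℕ in atTop, ∀ j < Nb (1 - ρ / 4) i,
    ((bl (1 - ρ / 4) i j : ℕ) : ℝ) ^ (1 - ρ / 2) ≤ Ln (1 - ρ / 4) i := by
  filter_upwards [eventually_ge_atTop ⌈4 / ρ⌉₊] with i hi j hj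
  have hi' : 4 / ρ ≤ i := (Nat.le_ceil _).trans (by exact_mod_cast hi)
  have h1 := bl_lt (1 - ρ / 4) (by linarith) i j hj
  have h2 : ((bl (1 - ρ / 4) i j : ℕ) : ℝ) ≤ 2 ^ (i + 1) := by exact_mod_cast h1.le
  refine le_trans ?_ (Ln_ge _ _)
  calc ((bl (1 - ρ / 4) i j : ℕ) : ℝ) ^ (1 - ρ / 2) ≤ ((2 : ℝ) ^ (i + 1)) ^ (1 - ρ / 2) :=
        Real.rpow_le_rpow (Nat.cast_nonneg _) h2 (by linarith)
    _ = (2 : ℝ) ^ (((i : ℝ) + 1) * (1 - ρ / 2)) := by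
        rw [← Real.rpow_natCast, ← Real.rpow_mul (by norm_num)]
        push_cast
        rfl
    _ ≤ (2 : ℝ) ^ ((1 - ρ / 4) * i) := by
        apply Real.rpow_le_rpow_of_exponent_le (by norm_num)
        rw [div_le_iff₀ hρ0] at hi'
        nlinarith

open Classical in
theorem main (hMS : S_MS) (hBAL : S_BAL) (hblk : S_MS → S_BLK) (hmany : S_BAL → S_MANY) (hfew : S_FEW) (hbc : S_BC)
    (hmet : S_BC → S_MET) (δ ρ : ℝ) (hδ0 : 0 < δ) (hδ1 : δ < 1) (hρ0 : 0 < ρ) (hρ1 : ρ < 1) :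
    ∃ K lam κ : ℝ, 0 < K ∧ 0 < lam ∧ 0 < κ ∧
      ∀ b w : ℕ → ℝ, Tendsto b atTop atTop → (∀ n, 0 ≤ w n) → Pool.Agent.H27.LD.BddMass b w →
      Tendsto (fun N : ℕ => ∑ n ∈ range N, w n) atTop atTop →
      ∀ᵐ α : ℝ, 1 < α → ∀ᶠ N : ℕ in atTop,
        κ * ∑ n ∈ range N, w n ≤ ∑ n ∈ (range N).filter (fun n : ℕ => Many δ ρ K lam (α ^ b n)), w n ∧
        κ * ∑ n ∈ range N, w n ≤ ∑ n ∈ (range N).filter (fun n : ℕ => Few δ ρ K (α ^ b n)), w n := by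
  obtain ⟨K, lam, c₁, hK, hlam, hc₁, hM⟩ := hmany hBAL δ ρ hδ0 hδ1 hρ0 hρ1
  obtain ⟨c₂, hc₂, hF⟩ := hfew δ ρ K hδ0 hδ1 hρ0 hρ1 hK
  obtain ⟨θ, hθ⟩ : ∃ θ, θ = 1 - ρ / 4 := ⟨_, rfl⟩
  have hθ0 : 1 / 2 < θ := by rw [hθ]; linarith
  have hθ1 : θ < 1 := by rw [hθ]; linarith
  have hB := hblk hMS θ (δ / 8) hθ0 hθ1 (by positivity)
  have hlen := len_ok ρ hρ0 hρ1
  rw [← hθ] at hlen
  have key : ∀ (S : Set ℕ) (c : ℝ), 0 < c → (∀ᶠ X : ℕ in atTop, ∀ Y : ℕ, (X : ℝ) ^ (1 - ρ / 2) ≤ Y → Y ≤ X →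
      |(pr X Y : ℝ) - Y / Real.log X| ≤ δ / 8 * (Y / Real.log X) →
      c * Y ≤ (((Ioc X (X + Y)).filter (fun m => m ∈ S)).card : ℝ)) →
      ∃ κ : ℝ, 0 < κ ∧ ∀ b w : ℕ → ℝ, Tendsto b atTop atTop → (∀ n, 0 ≤ w n) → Pool.Agent.H27.LD.BddMass b w →
        Tendsto (fun N : ℕ => ∑ n ∈ range N, w n) atTop atTop →
        ∀ᵐ α : ℝ, 1 < α → ∀ᶠ N : ℕ in atTop, κ * ∑ n ∈ range N, w n ≤
          ∑ n ∈ (range N).filter (fun n : ℕ => ∃ m ∈ S, (m : ℝ) ≤ α ^ b n ∧ α ^ b n ≤ m + 1), w n := by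
    intro S c hc hS
    refine hmet hbc S c θ hc (by linarith) hθ1 ?_
    have hS' : ∀ᶠ i : ℕ in atTop, ∀ j : ℕ, ∀ Y : ℕ, ((bl θ i j : ℕ) : ℝ) ^ (1 - ρ / 2) ≤ Y → Y ≤ bl θ i j →
        |(pr (bl θ i j) Y : ℝ) - Y / Real.log (bl θ i j)| ≤ δ / 8 * (Y / Real.log (bl θ i j)) →
        c * Y ≤ (((Ioc (bl θ i j) (bl θ i j + Y)).filter (fun m => m ∈ S)).card : ℝ) := by
      obtain ⟨X₀, hX₀⟩ := eventually_atTop.1 hS
      filter_upwards [eventually_ge_atTop X₀] with i hi j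
      apply hX₀
      have h1 : i < 2 ^ i := Nat.lt_two_pow_self
      have h2 := bl_ge θ i j
      omega
    filter_upwards [hB, hlen, hS'] with i h1 h2 h3
    refine le_trans ?_ h1
    apply mul_le_mul_of_nonneg_right _ (Nat.cast_nonneg _)
    apply Nat.cast_le.2
    apply Finset.card_le_card
    intro j hj
    rw [Finset.mem_filter, Finset.mem_range] at hj ⊢
    refine ⟨hj.1, ?_⟩
    by_contra hcon
    push Not at hcon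
    exact absurd (h3 j (Ln θ i) (h2 j hj.1) ((Ln_le θ hθ1 i).trans (bl_ge θ i j)) hcon) (not_le.2 hj.2)
  obtain ⟨κ₁, hκ₁, H1⟩ := key (unitSet (Many δ ρ K lam)) c₁ hc₁ (by
    filter_upwards [hM, eventually_ge_atTop 3] with X h1 hX Y hY1 hY2 hpr
    apply h1 Y hY1 hY2
    have := (abs_le.1 hpr).1
    linarith)
  obtain ⟨κ₂, hκ₂, H2⟩ := key (unitSet (Few δ ρ K)) c₂ hc₂ (by
    filter_upwards [hF, eventually_ge_atTop 3] with X h1 hX Y hY1 hY2 hpr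
    apply h1 Y hY1 hY2
    have := (abs_le.1 hpr).2
    linarith)
  refine ⟨K, lam, min κ₁ κ₂, hK, hlam, lt_min hκ₁ hκ₂, ?_⟩
  intro b w hb hw hm hdiv
  filter_upwards [H1 b w hb hw hm hdiv, H2 b w hb hw hm hdiv] with α h1 h2 hα
  filter_upwards [h1 hα, h2 hα] with N g1 g2
  have hW : 0 ≤ ∑ n ∈ range N, w n := Finset.sum_nonneg fun n _ => hw n
  constructor
  · refine (mul_le_mul_of_nonneg_right (min_le_left κ₁ κ₂) hW).trans (g1.trans ?_)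
    refine Finset.sum_le_sum_of_subset_of_nonneg ?_ fun n _ _ => hw n
    intro n hn
    rw [Finset.mem_filter] at hn ⊢
    obtain ⟨hn1, m, hm, h3, h4⟩ := hn
    exact ⟨hn1, hm _ h3 h4⟩
  · refine (mul_le_mul_of_nonneg_right (min_le_right κ₁ κ₂) hW).trans (g2.trans ?_)
    refine Finset.sum_le_sum_of_subset_of_nonneg ?_ fun n _ _ => hw n
    intro n hn
    rw [Finset.mem_filter] at hn ⊢
    obtain ⟨hn1, m, hm, h3, h4⟩ := hn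
    exact ⟨hn1, hm _ h3 h4⟩

end Pool.Agent.H27.PB
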