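import Pool.Agent.H27.PB.Stm

set_option autoImplicit false

/-! Project PB: elementary facts on the blocks. -/

open Filter Topology MeasureTheory Finset

namespace Pool.Agent.H27.PB

lemma Ln_pos (θ : ℝ) (i : ℕ) : 0 < Ln θ i := by unfold Ln; positivity

lemma Ln_ge (θ : ℝ) (i : ℕ) : (2 : ℝ) ^ (θ * i) ≤ Ln θ i := by
  unfold Ln
  push_cast
  rw [← Real.rpow_natCast]
  exact Real.rpow_le_rpow_of_exponent_le (by norm_num) (Nat.le_ceil _)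

lemma Ln_le' (θ : ℝ) (hθ0 : 0 ≤ θ) (i : ℕ) : (Ln θ i : ℝ) ≤ 2 * (2 : ℝ) ^ (θ * i) := by
  unfold Ln
  push_cast
  rw [← Real.rpow_natCast]
  have h1 : (⌈θ * i⌉₊ : ℝ) ≤ θ * i + 1 := (Nat.ceil_lt_add_one (by positivity)).le
  calc (2 : ℝ) ^ (⌈θ * i⌉₊ : ℝ) ≤ 2 ^ (θ * i + 1) := Real.rpow_le_rpow_of_exponent_le (by norm_num) h1
    _ = 2 * 2 ^ (θ * i) := by rw [Real.rpow_add (by norm_num), Real.rpow_one]; ring

lemma ceil_le (θ : ℝ) (hθ1 : θ < 1) (i : ℕ) : ⌈θ * i⌉₊ ≤ i := by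
  apply Nat.ceil_le.2
  have : (0 : ℝ) ≤ i := Nat.cast_nonneg _
  nlinarith

lemma Ln_le (θ : ℝ) (hθ1 : θ < 1) (i : ℕ) : Ln θ i ≤ 2 ^ i := by
  unfold Ln
  exact Nat.pow_le_pow_right (by norm_num) (ceil_le θ hθ1 i)

lemma Nb_mul (θ : ℝ) (hθ1 : θ < 1) (i : ℕ) : Nb θ i * Ln θ i = 2 ^ i := by
  unfold Nb Ln
  rw [← pow_add]
  congr 1
  have := ceil_le θ hθ1 i
  omega

lemma bl_ge (θ : ℝ) (i j : ℕ) : 2 ^ i ≤ bl θ i j := by unfold bl; omega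

lemma bl_add (θ : ℝ) (hθ1 : θ < 1) (i j : ℕ) (hj : j < Nb θ i) : bl θ i j + Ln θ i ≤ 2 ^ (i + 1) := by
  have h1 := Nb_mul θ hθ1 i
  have h2 : (j + 1) * Ln θ i ≤ Nb θ i * Ln θ i := Nat.mul_le_mul_right _ hj
  unfold bl
  rw [pow_succ]
  rw [add_mul, one_mul] at h2
  omega

lemma bl_lt (θ : ℝ) (hθ1 : θ < 1) (i j : ℕ) (hj : j < Nb θ i) : bl θ i j < 2 ^ (i + 1) := by
  have h1 := bl_add θ hθ1 i j hj
  have h2 := Ln_pos θ i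
  omega

end Pool.Agent.H27.PB
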