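import Pool.Agent.H27.LD.Metric

set_option autoImplicit false

/-!
Project PB (helper27, `MP_b09185_nt`): all windows `K log x ≤ H ≤ x ^ (1 - ρ)` at the points `x = α ^ b n`, for almost
all `α > 1`: a positive LOWER proportion of the `n` (for all weights with bounded mass on the dyadic blocks of the
exponents `b n`) has at least `1 - δ` times the expected number of primes in ALL windows, and a positive lower
proportion has at most `1 + δ` times the expected number in all windows. Statements of the parts.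
-/

open Filter Topology MeasureTheory Finset

namespace Pool.Agent.H27.PB

noncomputable section

/-- number of primes in `(x, x + H]` -/
def pr (x H : ℝ) : ℕ := {p : ℕ | p.Prime ∧ x < p ∧ (p : ℝ) ≤ x + H}.ncard

/-- many primes in all windows -/
def Many (δ ρ K lam x : ℝ) : Prop := ∀ H : ℝ, K * Real.log x ≤ H → H ≤ x ^ (1 - ρ) →
  (1 - δ) * H / Real.log x ≤ pr x H ∧ (pr x H : ℝ) ≤ lam * H / Real.log x

/-- not too many primes in all windows -/
def Few (δ ρ K x : ℝ) : Prop := ∀ H : ℝ, K * Real.log x ≤ H → H ≤ x ^ (1 - ρ) →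
  (pr x H : ℝ) ≤ (1 + δ) * H / Real.log x

/-- the integers `m` such that `P` holds on `[m, m + 1]` -/
def unitSet (P : ℝ → Prop) : Set ℕ := {m : ℕ | ∀ x : ℝ, (m : ℝ) ≤ x → x ≤ m + 1 → P x}

/-- all windows around the prime `p` of length at most `Y` contain at most the right order of primes -/
def RO (lam : ℝ) (X Y p : ℕ) : Prop := ∀ x H : ℝ, x < p → (p : ℝ) ≤ x + H → H ≤ Y →
  (pr x H : ℝ) ≤ lam * (1 + H / Real.log X)

/-- BAL (in the library, `MP_31d0eb_nt.BalancedPrimes`): few primes have a window with too many primes -/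
def S_BAL : Prop := ∀ θ : ℝ, 0 < θ → ∃ C : ℝ, 0 < C ∧ ∀ᶠ X : ℕ in atTop, ∀ Y : ℕ, (X : ℝ) ^ θ ≤ Y → Y ≤ X →
  ∀ lam : ℝ, 1 ≤ lam →
    ({p : ℕ | p.Prime ∧ X < p ∧ p ≤ X + Y ∧ ¬ RO lam X Y p}.ncard : ℝ) ≤ C / √lam * (Y / Real.log X)

/-- MS (in the library, `Helper855N.ms`): the primes in almost all short intervals (mean square) -/
def S_MS : Prop := ∃ C₀ X₀ : ℕ, ∀ X : ℕ, X₀ ≤ X → ∀ W : ℕ, (X : ℝ) ^ (1 / 2 : ℝ) * (Real.log X) ^ C₀ ≤ W → W ≤ X →
  ∑ u ∈ range X, (∑ n ∈ Ioc u (u + W), (ArithmeticFunction.vonMangoldt n - 1)) ^ 2 ≤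
    X * (W : ℝ) ^ 2 / (Real.log X) ^ 16

/-- length of the blocks between `2 ^ i` and `2 ^ (i + 1)` -/
def Ln (θ : ℝ) (i : ℕ) : ℕ := 2 ^ ⌈θ * i⌉₊

/-- number of the blocks -/
def Nb (θ : ℝ) (i : ℕ) : ℕ := 2 ^ (i - ⌈θ * i⌉₊)

/-- left end points of the blocks -/
def bl (θ : ℝ) (i j : ℕ) : ℕ := 2 ^ i + j * Ln θ i

open Classical in
/-- BLK: almost all blocks contain the expected number of primes.
Proof. From MS with `X = 2 ^ (i + 2)`. Let `L = Ln θ i`, `ℓ = log (bl θ i j)`, `ε ≤ 1 / 4` (w.l.o.g.). Suppose that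
`pr > (1 + ε) L / ℓ` for the block `(a, a + L]`. All these primes have `Λ = log p ≥ ℓ`, so the sum of `Λ` over the block is
`> (1 + ε) L`, and with `W = ⌊(1 + ε / 2) L⌋` the windows `(u, u + W]`, `a - ε L / 4 ≤ u ≤ a`, contain the block, and the sum
of `Λ - 1` over them is `≥ (1 + ε) L - W ≥ ε L / 2`. Suppose that `pr < (1 - ε) L / ℓ`. The sum of `Λ` over the block is
`≤ log (2 ^ (i+1)) * pr + (prime powers p^k, k ≥ 2: at most i * 2^((i+2)/2) * (log 2^(i+1)) in all (2^i, 2^(i+1)], which is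
≤ ε L / 8 as θ > 1/2)`; careful: `log (2 ^ (i + 1)) ≤ (1 + 1 / i) * log (bl θ i j)`, so the sum is `≤ (1 - ε + ε / 4) L`; with
`W = ⌈(1 - ε / 2) L⌉` the windows `(u, u + W]`, `a ≤ u ≤ a + ε L / 4`, are inside the block, so the sum of `Λ - 1` is
`≤ (1 - 3 ε / 4) L - W ≤ - ε L / 4`. So every bad block contributes at least `(ε L / 4) (ε L / 4) ^ 2` to the sum in MS (for one
of the two `W`; each `u` belongs to at most two blocks), and the number of bad blocks is at most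
`C ε^(-3) 2^(i+2) L^2 / (L^3 (i log 2)^16) ≤ Nb / i` for large `i` (`Nb * L = 2 ^ i`). -/
def S_BLK : Prop := ∀ θ ε : ℝ, 1 / 2 < θ → θ < 1 → 0 < ε → ∀ᶠ i : ℕ in atTop,
  (((range (Nb θ i)).filter (fun j => ε * (Ln θ i / Real.log (bl θ i j)) <
    |(pr (bl θ i j) (Ln θ i) : ℝ) - Ln θ i / Real.log (bl θ i j)|)).card : ℝ) * i ≤ Nb θ i

open Classical in
/-- MANY. Proof. `ℓ = log X`, `θ = 1 - ρ / 2`; `C` from BAL, `λ₀ ≥ 1` with `C / √λ₀ ≤ δ / 16`; `K₁` large (`16 / δ` times a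
constant), `K = K₁ + 2 + 4 / δ`, `lam = 8 λ₀`. Let `η Y ≥ X' ^ (1 - ρ)` for all `X' ≤ 3 X` with a small `η` (large `X`).
Call a prime `p ∈ (X, X + Y]` deficient if `pr p H < (1 - δ / 2) H / ℓ` for some `K₁ ℓ ≤ H ≤ η Y`. Greedy selection from the left:
the least deficient `p₁` with its `H₁`, the least deficient `p₂ > p₁ + H₁`, ...: every deficient prime is in some
`[p_i, p_i + H_i]`, these are disjoint, contained in an interval of length `(1 + η) Y`, and each contains at most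
`(1 - δ / 2) H_i / ℓ + 1` primes; there are at most `(1 + η) Y / (K₁ ℓ)` of them. So at most `(1 - δ / 2 + δ / 8) Y / ℓ` primes are
deficient, and at least `(δ / 4) Y / ℓ` primes are not deficient, by the hypothesis `(1 - δ / 8) Y / ℓ ≤ pr X Y`. By BAL at least
`(3 δ / 16) Y / ℓ` of these satisfy `RO λ₀ X Y p`; remove the primes `≤ X + ℓ + 2`; let `G` be the rest, `|G| ≥ (δ / 8) Y / ℓ`.
For `p ∈ G`, `t = ⌊ℓ⌋`, `p - t ≤ m ≤ p - 2` and `x ∈ [m, m + 1]`: `Many δ ρ K lam x`: for `K log x ≤ H ≤ x ^ (1 - ρ)` (note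
`ℓ ≤ log x ≤ 2 ℓ`) the window `(x, x + H]` contains `(p, p + H']` with `H' = H - (p - x) ≥ H - ℓ ≥ K₁ ℓ`, so it has at least
`(1 - δ / 2) (H - ℓ) / ℓ ≥ (1 - δ) H / ℓ ≥ (1 - δ) H / log x` primes; and it contains `p`, so by RO it has at most
`λ₀ (1 + H / ℓ) ≤ 2 λ₀ H / ℓ ≤ 4 λ₀ H / log x` primes. Double counting of the pairs `(p, m)`: every `p ∈ G` has `t - 1` of the `m`,
every `m` has at most `λ₀ (1 + t / ℓ) ≤ 2 λ₀` of the `p` (RO for the window `(m, m + t]`), so there are at least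
`|G| (t - 1) / (2 λ₀) ≥ c Y` of the `m` (compare `count_ints` in `Pool/Agent/H27/LD/Good.lean`, the same double counting). -/
def S_MANY : Prop := ∀ δ ρ : ℝ, 0 < δ → δ < 1 → 0 < ρ → ρ < 1 → ∃ K lam c : ℝ, 0 < K ∧ 0 < lam ∧ 0 < c ∧
  ∀ᶠ X : ℕ in atTop, ∀ Y : ℕ, (X : ℝ) ^ (1 - ρ / 2) ≤ Y → Y ≤ X →
    (1 - δ / 8) * (Y / Real.log X) ≤ pr X Y →
    c * Y ≤ (((Ioc X (X + Y)).filter (fun m => m ∈ unitSet (Many δ ρ K lam))).card : ℝ)

open Classical in
/-- FEW. Proof. `ℓ = log X`. Call `m ∈ (X, X + Y]` bad if it is not in the set, so that there are `x ∈ [m, m + 1]` and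
`K log x ≤ H ≤ x ^ (1 - ρ)` with `pr x H > (1 + δ) H / log x`. Greedy selection from the left: the least bad `m₁` with
`x₁, H₁`, then the least bad `m₂ ≥ x₁ + H₁`, ...: the windows `(x_i, x_i + H_i]` are disjoint and the bad `m` are in the
intervals `[m_i, x_i + H_i]`, so their number is at most `∑ (H_i + 2) ≤ (1 + 2 / (K ℓ)) ∑ H_i`. All but the last window are inside
`(X, X + Y + 1]`, so `∑ (1 + δ) H_i / log (3 X) ≤ pr X Y + 1 + (2 (3 X) ^ (1 - ρ) + 1) ≤ (1 + δ / 8 + δ / 16) Y / ℓ` for large `X`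
(as `(3 X) ^ (1 - ρ)` is small compared with `X ^ (1 - ρ / 2) / log X`), and `∑ H_i ≤ (1 + δ / 4) / (1 + δ) * (log (3 X) / ℓ) * Y`.
So at most `(1 - δ / 8) Y` of the `m` are bad; `c = δ / 16`. -/
def S_FEW : Prop := ∀ δ ρ K : ℝ, 0 < δ → δ < 1 → 0 < ρ → ρ < 1 → 0 < K → ∃ c : ℝ, 0 < c ∧
  ∀ᶠ X : ℕ in atTop, ∀ Y : ℕ, (X : ℝ) ^ (1 - ρ / 2) ≤ Y → Y ≤ X →
    (pr X Y : ℝ) ≤ (1 + δ / 8) * (Y / Real.log X) →
    c * Y ≤ (((Ioc X (X + Y)).filter (fun m => m ∈ unitSet (Few δ ρ K))).card : ℝ)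

open Classical in
/-- BC: sparse sets of integers are hit by a summable family.
Proof. Let `u > 0`, `β = log α ∈ [u, 2 u]`, `Ev B b = {β | ∃ m ∈ B, m ≤ exp (β b) ≤ m + 1}` (see `LD/Cells.lean`). One `m` gives an
interval of length `(log (m + 1) - log m) / b ≤ 1 / (m b)`; only the `m` with `exp (u b) - 1 ≤ m ≤ exp (2 u b)` matter, and
the sum of `1 / m` over the elements of `B` in `(2 ^ i, 2 ^ (i + 1)]` is at most `1 / i`; these `i` are between `i₁ ≈ u b / log 2 - 2`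
and `i₂ ≈ 2 u b / log 2 + 1`, so the sum of the `1 / i` is at most `5`, say, and `volume (Ev B b ∩ [u, 2u]) ≤ 5 / b` for `b ≥ b₀(u)`.
The integral of `∑ w n hit` is at most (finite) + `∑ 5 w n / b n`, and by `BddMass` (blocks `2 ^ k ≤ b n < 2 ^ (k + 1)`) this is
at most `∑_k 5 C 2 ^ (-k)`. So the sum is finite almost everywhere on `[u, 2 u]`; then all `β > 0`, then `α = exp β` (null sets are
mapped to null sets, as at the end of `LD/Metric.lean`). -/
def S_BC : Prop := ∀ B : Set ℕ,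
  (∀ᶠ i : ℕ in atTop, (((Ioc (2 ^ i) (2 ^ (i + 1))).filter (fun m : ℕ => m ∈ B)).card : ℝ) * i ≤ 2 ^ i) →
  ∀ b w : ℕ → ℝ, Tendsto b atTop atTop → (∀ n, 0 ≤ w n) → Pool.Agent.H27.LD.BddMass b w →
    ∀ᵐ α : ℝ, 1 < α → Summable fun n : ℕ =>
      w n * (if ∃ m ∈ B, (m : ℝ) ≤ α ^ b n ∧ α ^ b n ≤ m + 1 then 1 else 0)

open Classical in
/-- MET: the metric theorem for sets which have positive density in almost all blocks.
Proof. Let `B` be the union of the bad blocks `(bl θ i j, bl θ i j + Ln θ i]`, `i ≥ 1` (those in the filter below). It is sparse in the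
sense of BC (the number of bad blocks times `Ln θ i` is at most `Nb θ i * Ln θ i / i = 2 ^ i / i`). The set `S ∪ B` satisfies
`Pool.Agent.H27.LD.Dense (S ∪ B) (c / 8) ((1 + θ) / 2) X₀` (w.l.o.g. `c ≤ 1`): an interval `(X, X + Y]`, `X ^ ((1 + θ) / 2) ≤ Y ≤ X`,
contains an interval of length `≥ Y / 2 - 1` inside some `(2 ^ i, 2 ^ (i + 1)]`, which contains full blocks of total length
`≥ Y / 2 - 1 - 2 Ln θ i ≥ Y / 4` (large `X`). `Pool.Agent.H27.LD.metric` gives the lower proportion `c / 768` for the hits of `S ∪ B`; a hit of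
`S ∪ B` is a hit of `S` or of `B`, and the total weight of the hits of `B` is finite by BC, so it is at most half of
`c / 768 ∑ w n` for large `N`. `κ = c / 1536`. -/
def S_MET : Prop := ∀ (S : Set ℕ) (c θ : ℝ), 0 < c → 0 < θ → θ < 1 →
  (∀ᶠ i : ℕ in atTop, (((range (Nb θ i)).filter (fun j =>
    (((Ioc (bl θ i j) (bl θ i j + Ln θ i)).filter (fun m => m ∈ S)).card : ℝ) < c * Ln θ i)).card : ℝ) * i ≤ Nb θ i) →
  ∃ κ : ℝ, 0 < κ ∧ ∀ b w : ℕ → ℝ, Tendsto b atTop atTop → (∀ n, 0 ≤ w n) → Pool.Agent.H27.LD.BddMass b w →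
    Tendsto (fun N : ℕ => ∑ n ∈ range N, w n) atTop atTop →
    ∀ᵐ α : ℝ, 1 < α → ∀ᶠ N : ℕ in atTop, κ * ∑ n ∈ range N, w n ≤
      ∑ n ∈ (range N).filter (fun n : ℕ => ∃ m ∈ S, (m : ℝ) ≤ α ^ b n ∧ α ^ b n ≤ m + 1), w n

end

end Pool.Agent.H27.PB
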