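import Pool.Agent.H27.PB.Stm

set_option autoImplicit false

/-! Project PB: the windows in terms of `R_H(x)`. -/

open Filter Topology MeasureTheory Finset

namespace Pool.Agent.H27.PB

/-- `R_H(x) = (log x / H) (π(x + H) - π(x))` -/
noncomputable def R (H x : ℝ) : ℝ :=
  Real.log x / H * ((Nat.primeCounting ⌊x + H⌋₊ : ℝ) - Nat.primeCounting ⌊x⌋₊)

lemma pr_eq (x H : ℝ) (hx : 0 ≤ x) (hH : 0 ≤ H) :
    (pr x H : ℝ) = (Nat.primeCounting ⌊x + H⌋₊ : ℝ) - Nat.primeCounting ⌊x⌋₊ := by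
  have h1 : {p : ℕ | p.Prime ∧ x < p ∧ (p : ℝ) ≤ x + H} =
      (((range (⌊x + H⌋₊ + 1)).filter Nat.Prime \ (range (⌊x⌋₊ + 1)).filter Nat.Prime : Finset ℕ) : Set ℕ) := by
    ext p
    simp only [Finset.coe_sdiff, Finset.coe_filter, Finset.mem_range, Set.mem_diff, Set.mem_ofPred_eq]
    constructor
    · rintro ⟨p1, p2, p3⟩
      refine ⟨⟨Nat.lt_succ_of_le (Nat.le_floor p3), p1⟩, fun h => ?_⟩
      have h2 := Nat.le_of_lt_succ h.1
      have h3 : (p : ℝ) ≤ x := (Nat.le_floor_iff hx).1 h2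
      linarith
    · rintro ⟨⟨p1, p2⟩, p3⟩
      refine ⟨p2, ?_, ?_⟩
      · by_contra hcon
        exact p3 ⟨Nat.lt_succ_of_le (Nat.le_floor (not_lt.1 hcon)), p2⟩
      · exact (Nat.le_floor_iff (by linarith)).1 (Nat.le_of_lt_succ p1)
  have hsub : (range (⌊x⌋₊ + 1)).filter Nat.Prime ⊆ (range (⌊x + H⌋₊ + 1)).filter Nat.Prime := by
    apply Finset.filter_subset_filter
    apply Finset.range_subset_range.2
    have := Nat.floor_mono (show x ≤ x + H by linarith)
    omega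
  have hc : ∀ n : ℕ, Nat.primeCounting n = ((range (n + 1)).filter Nat.Prime).card := by
    intro n
    unfold Nat.primeCounting Nat.primeCounting'
    rw [Nat.count_eq_card_filter_range]
  unfold pr
  rw [h1, Set.ncard_coe_finset, Finset.card_sdiff_of_subset hsub, Nat.cast_sub (Finset.card_le_card hsub), hc, hc]

/-- all windows of lengths `K log x ≤ H ≤ x ^ (1 - ρ)` have `R_H(x) ∈ I` -/
def AllWindows (ρ K : ℝ) (I : Set ℝ) (x : ℝ) : Prop := ∀ H : ℝ, K * Real.log x ≤ H → H ≤ x ^ (1 - ρ) → R H x ∈ I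

lemma many_win (δ ρ K lam x : ℝ) (hK : 0 < K) (hx : 1 < x) (h : Many δ ρ K lam x) :
    AllWindows ρ K (Set.Icc (1 - δ) lam) x := by
  intro H h1 h2
  have hl : 0 < Real.log x := Real.log_pos hx
  have hH : 0 < H := lt_of_lt_of_le (by positivity) h1
  obtain ⟨g1, g2⟩ := h H h1 h2
  unfold R
  rw [← pr_eq x H (by linarith) hH.le]
  constructor
  · rw [div_mul_eq_mul_div, le_div_iff₀ hH]
    rw [div_le_iff₀ hl] at g1
    linarith
  · rw [div_mul_eq_mul_div, div_le_iff₀ hH]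
    rw [le_div_iff₀ hl] at g2
    linarith

lemma few_win (δ ρ K x : ℝ) (hK : 0 < K) (hx : 1 < x) (h : Few δ ρ K x) :
    AllWindows ρ K (Set.Iic (1 + δ)) x := by
  intro H h1 h2
  have hl : 0 < Real.log x := Real.log_pos hx
  have hH : 0 < H := lt_of_lt_of_le (by positivity) h1
  have g2 := h H h1 h2
  unfold R
  rw [← pr_eq x H (by linarith) hH.le]
  rw [Set.mem_Iic, div_mul_eq_mul_div, div_le_iff₀ hH]
  rw [le_div_iff₀ hl] at g2
  linarith

open Classical in
/-- finitely many terms do not matter -/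
lemma drop_finite (b w : ℕ → ℝ) (hb : Tendsto b atTop atTop) (hw : ∀ n, 0 ≤ w n)
    (hdiv : Tendsto (fun N : ℕ => ∑ n ∈ range N, w n) atTop atTop) (κ : ℝ) (hκ : 0 < κ) (P Q : ℕ → Prop)
    (hPQ : ∀ n, 1 ≤ b n → P n → Q n)
    (h : ∀ᶠ N : ℕ in atTop, κ * ∑ n ∈ range N, w n ≤ ∑ n ∈ (range N).filter P, w n) :
    ∀ᶠ N : ℕ in atTop, κ / 2 * ∑ n ∈ range N, w n ≤ ∑ n ∈ (range N).filter Q, w n := by
  obtain ⟨n₀, hn₀⟩ := eventually_atTop.1 (hb.eventually_ge_atTop 1)
  obtain ⟨T, hT⟩ : ∃ T, T = ∑ n ∈ range n₀, w n := ⟨_, rfl⟩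
  filter_upwards [h, hdiv.eventually_ge_atTop (2 / κ * T)] with N h1 h2
  have h3 : ∑ n ∈ (range N).filter P, w n ≤ ∑ n ∈ (range N).filter Q, w n + T := by
    rw [hT]
    calc ∑ n ∈ (range N).filter P, w n ≤ ∑ n ∈ (range N).filter Q ∪ range n₀, w n := by
          apply Finset.sum_le_sum_of_subset_of_nonneg
          · intro n hn
            rw [Finset.mem_filter] at hn
            rw [Finset.mem_union, Finset.mem_filter]
            by_cases hn2 : n < n₀
            · right; exact Finset.mem_range.2 hn2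
            · left
              exact ⟨hn.1, hPQ n (hn₀ n (not_lt.1 hn2)) hn.2⟩
          · intro n _ _
            exact hw n
      _ ≤ _ := by
          have := Finset.sum_union_inter (s₁ := (range N).filter Q) (s₂ := range n₀) (f := w)
          have h4 : 0 ≤ ∑ n ∈ (range N).filter Q ∩ range n₀, w n := Finset.sum_nonneg fun n _ => hw n
          linarith
  have h4 : T ≤ κ / 2 * ∑ n ∈ range N, w n := by
    calc T = κ / 2 * (2 / κ * T) := by field_simp
      _ ≤ _ := mul_le_mul_of_nonneg_left h2 (by positivity)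
  linarith

end Pool.Agent.H27.PB
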